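import Mathlib

/-!
Interface for the construction of a multiplicative function with sum zero and partial sums
`o(x^(-1/2))`. Only definitions and statements (as `Prop`s); the proofs are in sibling files.
-/

set_option autoImplicit false

open Filter Topology Finset

namespace Pool.Agent.H392Z.MO

/-- The naturals `n` with `t ≤ n < t + h`. -/
noncomputable def Ival (t h : ℝ) : Finset ℕ := Finset.Ico ⌈t⌉₊ ⌈t + h⌉₊

/-- Every prime factor of `n` exceeds `w`. -/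
def Rough (w : ℝ) (n : ℕ) : Prop := ∀ p : ℕ, p.Prime → p ∣ n → w < (p : ℝ)

/-- No zero of zeta to the right of the critical line. -/
def NoZero : Prop := ∀ s : ℂ, 1 / 2 < s.re → riemannZeta s ≠ 0

/-- (I1) Few short intervals are poor in primes. -/
def FewPoor : Prop :=
  ∀ δ : ℝ, 0 < δ → ∃ C X₀ : ℝ, 0 < C ∧ ∀ X : ℝ, X₀ ≤ X → ∀ H : ℝ,
    X ^ (2 / 5 : ℝ) ≤ H → H ≤ X ^ (1 / 2 : ℝ) → ∀ T : Finset ℝ,
      (∀ t ∈ T, X ≤ t ∧ t ≤ 2 * X) → (∀ s ∈ T, ∀ t ∈ T, s ≠ t → H ≤ |s - t|) →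
      (∀ t ∈ T, (((Ival t H).filter Nat.Prime).card : ℝ) ≤ H / (100 * Real.log X)) →
      (T.card : ℝ) ≤ C * X ^ (1 + δ) / H ^ 2

open Classical in
/-- (I2) Upper bound sieve for rough numbers in an interval. -/
def RoughBound (C : ℝ) : Prop :=
  ∀ t h w : ℝ, 0 ≤ t → 2 ≤ w → w ^ 5 ≤ h →
    (((Ival t h).filter (Rough w)).card : ℝ) ≤ C * h / Real.log w

open Classical in
/-- (I3) Many rough numbers with a prime factor beyond `x^(1/2+κ)` in every interval of length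
about `x^(1/2)`. -/
def Handles (κ σ c₁ : ℝ) : Prop :=
  ∃ x₀ : ℝ, ∀ x : ℝ, x₀ ≤ x → ∀ H : ℝ, x ^ (499 / 1000 : ℝ) ≤ H → H ≤ x ^ (1 / 2 : ℝ) →
    c₁ * H / Real.log x ≤ (((Ival x H).filter (fun n => Rough (x ^ σ) n ∧
      ∃ q : ℕ, q.Prime ∧ q ∣ n ∧ x ^ (1 / 2 + κ) ≤ (q : ℝ))).card : ℝ)

/-- Statement of task I1. -/
def S_I1 : Prop := NoZero → FewPoor

/-- Statement of task I2. -/
def S_I2 : Prop := ∃ C : ℝ, 0 < C ∧ RoughBound C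

/-- Statement of task I3. -/
def S_I3 : Prop := ∃ κ σ c₁ : ℝ, 0 < σ ∧ σ ≤ κ ∧ κ ≤ 1 / 100 ∧ 0 < c₁ ∧ Handles κ σ c₁

/-- Statement of task I5: a zero of zeta with real part above one half gives the example
`(-1)^(n-1) n^(-α)`. -/
def S_I5 : Prop := ¬ NoZero → ∃ f : ArithmeticFunction ℂ, f.IsMultiplicative ∧
  (∀ p : ℕ, p.Prime → ∃ b : ℂ, b ≠ 0 ∧
    Tendsto (fun K : ℕ => ∑ k ∈ Finset.range K, f (p ^ k)) atTop (𝓝 b)) ∧
  Tendsto (fun x : ℝ => Real.sqrt x * ‖∑ n ∈ Finset.Icc 1 ⌊x⌋₊, f n‖) atTop (𝓝 0)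

/-! Blocks. `A` is slightly below `2`; block `i` is `[i^A, (i+1)^A)`. -/

/-- Left end point of block `i`. -/
noncomputable def tt (A : ℝ) (i : ℕ) : ℝ := (i : ℝ) ^ A

/-- Block `i`. -/
noncomputable def B (A : ℝ) (i : ℕ) : Finset ℕ := Finset.Ico ⌈tt A i⌉₊ ⌈tt A (i + 1)⌉₊

/-- The index of the block that contains `n`. -/
noncomputable def blk (A : ℝ) (n : ℕ) : ℕ := ⌊(n : ℝ) ^ (1 / A)⌋₊

/-- The order of magnitude of the length of block `i`. -/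
noncomputable def HH (A : ℝ) (i : ℕ) : ℝ := (i : ℝ) ^ (A - 1)

/-- Primes in blocks of index at least `kk κ c` are large for block `c`. -/
noncomputable def kk (κ : ℝ) (c : ℕ) : ℕ := ⌊(c : ℝ) ^ (1 / 2 + κ)⌋₊

/-- Largest prime factor (`0` for `n = 0, 1`). -/
def PF (n : ℕ) : ℕ := n.primeFactors.sup id

open Classical in
/-- The set `M` has at most `C I^μ` elements up to `I`. -/
def Sparse (M : Set ℕ) (C μ : ℝ) : Prop :=
  ∀ I : ℕ, 1 ≤ I → (((Finset.range (I + 1)).filter (fun c => c ∈ M)).card : ℝ) ≤ C * (I : ℝ) ^ μ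

/-- `p` is a large factor of an element of a member block, with cofactor `1` or beyond `y`. -/
def Prot (A κ : ℝ) (M : Set ℕ) (y : ℝ) (p : ℕ) : Prop :=
  ∃ c ∈ M, ∃ r : ℕ, (r = 1 ∨ y < (r : ℝ)) ∧ r * p ∈ B A c ∧ kk κ c ≤ blk A p

open Classical in
/-- Unprotected primes of block `i`. -/
noncomputable def Free (A κ : ℝ) (M : Set ℕ) (y : ℝ) (i : ℕ) : Finset ℕ :=
  (B A i).filter (fun p => p.Prime ∧ ¬ Prot A κ M y p)

open Classical in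
/-- Handle numbers of block `c`. -/
noncomputable def Hand (A κ σ : ℝ) (M : Set ℕ) (c : ℕ) : Finset ℕ :=
  (B A c).filter (fun n => Rough (tt A c ^ σ) n ∧ kk κ c ≤ blk A (PF n) ∧
    ∀ c' ∈ M, 1 ≤ c' → c' < c → ∀ n' ∈ B A c', ¬ PF n ∣ n')

open Classical in
/-- Active numbers of block `i`. -/
noncomputable def Act (A κ σ : ℝ) (M : Set ℕ) (y : ℝ) (i : ℕ) : Finset ℕ :=
  if i ∈ M then Hand A κ σ M i else Free A κ M y i

/-- `q` is a handle prime (of a member block of index at least `i₁`). -/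
def IsH (A κ σ : ℝ) (M : Set ℕ) (i₁ : ℕ) (q : ℕ) : Prop :=
  ∃ c ∈ M, i₁ ≤ c ∧ ∃ n ∈ Hand A κ σ M c, PF n = q

open Classical in
/-- Primes, large for the home block `c`, with a multiple `m q` (`m` rough) in block `c` and a
multiple `a q` in block `i` that is not a multiple of `m q`. -/
noncomputable def Fset (A κ σ : ℝ) (i c : ℕ) : Finset ℕ :=
  (Finset.range ⌈tt A (c + 1)⌉₊).filter (fun q => q.Prime ∧ kk κ c ≤ blk A q ∧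
    ∃ a m : ℕ, a * q ∈ B A i ∧ m * q ∈ B A c ∧ Rough (tt A c ^ σ) m ∧ ¬ m ∣ a)

/-- The size function. -/
noncomputable def phi (ε t : ℝ) : ℝ := t ^ (ε - 1) / Real.log t ^ 2

/-- A sparse set of member blocks outside which every block has many free primes. -/
def Family (A κ μ : ℝ) : Prop :=
  ∃ (M : Set ℕ) (C c₂ y₀ : ℝ) (i₀ : ℕ), 0 < C ∧ 0 < c₂ ∧ Sparse M C μ ∧
    ∀ y : ℝ, y₀ ≤ y → ∀ i : ℕ, i₀ ≤ i → i ∉ M →
      c₂ * HH A i / Real.log i ≤ ((Free A κ M y i).card : ℝ)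

/-- Statement of task FAM. -/
def S_Fam : Prop :=
  FewPoor → ∀ C : ℝ, 0 < C → RoughBound C → ∀ κ μ : ℝ, 0 < κ → κ ≤ 1 / 100 → 0 < μ → μ ≤ κ / 10 →
    ∃ η₀ : ℝ, 0 < η₀ ∧ ∀ A : ℝ, A < 2 → 2 - η₀ ≤ A → Family A κ μ

/-- The two bounds for non-aligned hits. -/
def Frac (A κ σ : ℝ) : Prop :=
  ∃ i₀ : ℕ,
    (∀ i c : ℕ, i₀ ≤ i → (i : ℝ) ^ (1 - κ / 2) ≤ c →
      ((Fset A κ σ i c).card : ℝ) ≤ HH A i * (i : ℝ) ^ (-(σ / 4))) ∧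
    (∀ i c : ℕ, i₀ ≤ c → i < c →
      ((Fset A κ σ i c).card : ℝ) ≤ HH A c * (c : ℝ) ^ (-(σ / 4)))

/-- Statement of task FRAC. -/
def S_Frac : Prop :=
  ∀ A κ σ : ℝ, 0 < σ → σ ≤ κ → κ ≤ 1 / 100 → 2 - σ / 100 ≤ A → A < 2 → Frac A κ σ

/-- Size conditions on the absolute value `g` of the function under construction. -/
structure Adm (A κ σ ε : ℝ) (M : Set ℕ) (i₁ : ℕ) (g : ℕ → ℝ) : Prop where
  nonneg : ∀ n, 0 ≤ g n
  one : g 1 = 1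
  mul : ∀ m n, 0 < m → 0 < n → g (m * n) = g m * g n
  small : ∀ p : ℕ, p.Prime → (p : ℝ) ≤ tt A i₁ ^ σ → g p = 0
  normal : ∀ p : ℕ, p.Prime → ¬ IsH A κ σ M i₁ p → g p ≤ phi ε p
  dflt : ∀ p : ℕ, p.Prime → ¬ IsH A κ σ M i₁ p →
    p ∉ Act A κ σ M (tt A i₁ ^ σ) (blk A p) → g p ≤ 1 / (p : ℝ)
  handle : ∀ q : ℕ, q.Prime → IsH A κ σ M i₁ q → g q ≤ (q : ℝ) ^ (2 * ε - 1)
  handNum : ∀ c ∈ M, i₁ ≤ c → ∀ n ∈ Hand A κ σ M c, g n ≤ phi ε n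

/-- The a priori estimate for the passive part of every block. -/
def Est (A κ σ ε : ℝ) (M : Set ℕ) : Prop :=
  ∀ θ : ℝ, 0 < θ → ∃ i₀ : ℕ, ∀ i₁ : ℕ, i₀ ≤ i₁ → ∀ g : ℕ → ℝ, Adm A κ σ ε M i₁ g →
    ∀ i : ℕ, i₁ ≤ i → ∑ n ∈ B A i \ Act A κ σ M (tt A i₁ ^ σ) i, g n ≤
      θ * phi ε (tt A i) * HH A i / Real.log i

/-- Statement of task EST. -/
def S_Est : Prop :=
  ∀ C : ℝ, 0 < C → RoughBound C → ∀ A κ σ ε μ CM : ℝ, ∀ M : Set ℕ, 0 < σ → σ ≤ κ → κ ≤ 1 / 100 →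
    2 - σ / 100 ≤ A → A < 2 → 0 < ε → ε ≤ σ / 1000 → 0 < μ → μ ≤ σ / 1000 → 0 < CM →
    Sparse M CM μ → Frac A κ σ → Est A κ σ ε M

/-- Every block from `i₁` on has many active numbers. -/
def Many (A κ σ : ℝ) (M : Set ℕ) (c₂ : ℝ) : Prop :=
  ∃ i₀ : ℕ, ∀ i₁ : ℕ, i₀ ≤ i₁ → ∀ i : ℕ, i₁ ≤ i →
    c₂ * HH A i / Real.log i ≤ ((Act A κ σ M (tt A i₁ ^ σ) i).card : ℝ)

/-- The goal of the construction: a completely multiplicative function with small partial sums. -/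
def GoalCM : Prop :=
  ∃ f : ℕ → ℂ, f 1 = 1 ∧ (∀ m n : ℕ, 0 < m → 0 < n → f (m * n) = f m * f n) ∧
    (∀ p : ℕ, p.Prime → ‖f p‖ < 1) ∧
    Tendsto (fun x : ℝ => Real.sqrt x * ‖∑ n ∈ Finset.Icc 1 ⌊x⌋₊, f n‖) atTop (𝓝 0)

/-- Statement of task CON. -/
def S_Con : Prop :=
  ∀ A κ σ ε μ CM c₂ : ℝ, ∀ M : Set ℕ, 0 < σ → σ ≤ κ → κ ≤ 1 / 100 →
    2 - σ / 100 ≤ A → A < 2 → 0 < ε → ε < 1 / A - 1 / 2 → 0 < μ → μ ≤ 1 / 2 → 0 < CM → 0 < c₂ →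
    Sparse M CM μ → Many A κ σ M c₂ → Est A κ σ ε M → GoalCM

end Pool.Agent.H392Z.MO
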