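import Mathlib
import Pool.Agent.H392Z.MO.Spec

/-!
Sub-statements for the core of the construction. Only definitions and statements.
-/

set_option autoImplicit false

open Filter Topology Finset

namespace Pool.Agent.H392Z.MO

/-! Part FAM. -/

/-- Block `j` has few primes. -/
def Poor (A : ℝ) (j : ℕ) : Prop :=
  (((B A j).filter Nat.Prime).card : ℝ) ≤ HH A j / (400 * Real.log j)

/-- Task FamA: poor blocks are sparse. -/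
def S_FamA : Prop :=
  FewPoor → ∀ lam : ℝ, 0 < lam → ∃ η₀ : ℝ, 0 < η₀ ∧ ∀ A : ℝ, A < 2 → 2 - η₀ ≤ A →
    ∃ C : ℝ, 0 < C ∧ Sparse {j | Poor A j} C lam

open Classical in
/-- The weight of poor blocks seen from block `i` after division by a small integer. -/
noncomputable def wt (A lam : ℝ) (i : ℕ) : ℝ :=
  ∑ ρ ∈ Finset.Icc 1 ⌊(i : ℝ) ^ (10 * lam)⌋₊,
    ∑ _j ∈ (Finset.range ((i + 3) * ρ + 1)).filter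
      (fun j : ℕ => Poor A j ∧ |(j : ℝ) * (ρ : ℝ) ^ (-(1 / A)) - i| ≤ 3), (ρ : ℝ) ^ (-(1 / 4 : ℝ))

/-- Member blocks. -/
def Mem (A lam : ℝ) : Set ℕ := {i | 1 ≤ wt A lam i}

/-- Task FamB: member blocks are sparse and contain the poor blocks. -/
def S_FamB : Prop :=
  ∀ A lam C : ℝ, 1 ≤ A → A < 2 → 0 < lam → lam ≤ 1 / 10000 → 0 < C →
    Sparse {j | Poor A j} C lam →
      (∃ C' : ℝ, 0 < C' ∧ Sparse (Mem A lam) C' (20 * lam)) ∧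
        ∀ i : ℕ, 1 ≤ i → Poor A i → i ∈ Mem A lam

open Classical in
/-- Task FamC: few primes of a non-member block have a small multiple in a member block. -/
def S_FamC : Prop :=
  ∀ CR A lam C : ℝ, 0 < CR → RoughBound CR → 199 / 100 ≤ A → A < 2 → 0 < lam →
    lam ≤ 1 / 10000 → 0 < C → Sparse {j | Poor A j} C lam → ∀ θ : ℝ, 0 < θ →
      ∃ (y₀ : ℝ) (i₀ : ℕ), ∀ y : ℝ, y₀ ≤ y → ∀ i : ℕ, i₀ ≤ i → i ∉ Mem A lam →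
        (((B A i).filter (fun p => p.Prime ∧ ∃ c ∈ Mem A lam, ∃ r : ℕ, y < (r : ℝ) ∧
          (r : ℝ) ≤ (i : ℝ) ^ (100 * lam) ∧ r * p ∈ B A c)).card : ℝ) ≤ θ * HH A i / Real.log i

open Classical in
/-- Task FamD: few elements of a block have a large multiple in a member block. -/
def S_FamD : Prop :=
  ∀ A κ lam CM : ℝ, ∀ M : Set ℕ, 0 < κ → κ ≤ 1 / 100 → 2 - κ / 100 ≤ A → A < 2 → 0 < lam →
    lam ≤ κ / 200 → 0 < CM → Sparse M CM (20 * lam) → ∀ θ : ℝ, 0 < θ →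
      ∃ i₀ : ℕ, ∀ i : ℕ, i₀ ≤ i →
        (((B A i).filter (fun p => ∃ c ∈ M, ∃ r : ℕ, (i : ℝ) ^ (100 * lam) < (r : ℝ) ∧
          r * p ∈ B A c ∧ kk κ c ≤ i)).card : ℝ) ≤ θ * HH A i / Real.log i

/-! Part CON. -/

/-- The amount that the active numbers of block `i` have to cancel. -/
noncomputable def DD (A κ σ : ℝ) (M : Set ℕ) (i₁ : ℕ) (s : ℕ → ℝ) (f : ℕ → ℂ) (i : ℕ) : ℂ :=
  (s i : ℂ) * ∑ n ∈ Finset.Ico 1 ⌈tt A i₁⌉₊, f n +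
    ∑ n ∈ B A i \ Act A κ σ M (tt A i₁ ^ σ) i, f n

/-- The recursion can be solved: the values on active numbers may be prescribed as any nonzero
function of the passive sum of the block. -/
def Struct (A κ σ : ℝ) (M : Set ℕ) : Prop :=
  ∃ i₀ : ℕ, ∀ i₁ : ℕ, i₀ ≤ i₁ → ∀ s : ℕ → ℝ, (∀ i ∈ M, s i = 0) →
    ∀ Φ : ℕ → ℂ → ℕ → ℂ, (∀ i D n, Φ i D n ≠ 0) →
      ∃ f : ℕ → ℂ, f 1 = 1 ∧ (∀ m n : ℕ, 0 < m → 0 < n → f (m * n) = f m * f n) ∧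
        (∀ p : ℕ, p.Prime → (p : ℝ) ≤ tt A i₁ ^ σ → f p = 0) ∧
        (∀ p : ℕ, p.Prime → tt A i₁ ^ σ < (p : ℝ) → ¬ IsH A κ σ M i₁ p →
          ¬ (i₁ ≤ blk A p ∧ p ∈ Act A κ σ M (tt A i₁ ^ σ) (blk A p)) → f p = 1 / (p : ℂ)) ∧
        (∀ i : ℕ, i₁ ≤ i → ∀ n ∈ Act A κ σ M (tt A i₁ ^ σ) i,
          f n = Φ i (DD A κ σ M i₁ s f i) n)

/-- Task ConA. -/
def S_ConA : Prop :=
  ∀ A κ σ : ℝ, ∀ M : Set ℕ, 0 < σ → σ ≤ κ → κ ≤ 1 / 100 → 2 - σ / 100 ≤ A → A < 2 →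
    Struct A κ σ M

/-- Task ConB. -/
def S_ConB : Prop :=
  ∀ A κ σ ε μ CM c₂ : ℝ, ∀ M : Set ℕ, 0 < σ → σ ≤ κ → κ ≤ 1 / 100 →
    2 - σ / 100 ≤ A → A < 2 → 0 < ε → ε < 1 / A - 1 / 2 → 0 < μ → μ ≤ 1 / 2 → 0 < CM → 0 < c₂ →
    Sparse M CM μ → Many A κ σ M c₂ → Est A κ σ ε M → Struct A κ σ M → GoalCM

theorem con_of (ha : S_ConA) (hb : S_ConB) : S_Con :=
  fun A κ σ ε μ CM c₂ M h1 h2 h3 h4 h5 h6 h7 h8 h9 h10 h11 h12 h13 h14 =>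
    hb A κ σ ε μ CM c₂ M h1 h2 h3 h4 h5 h6 h7 h8 h9 h10 h11 h12 h13 h14
      (ha A κ σ M h1 h2 h3 h4 h5)

/-! Part EST. -/

/-- The range of the parameters. -/
structure Par (A κ σ ε μ : ℝ) : Prop where
  s_pos : 0 < σ
  s_le : σ ≤ κ
  k_le : κ ≤ 1 / 100
  A_ge : 2 - σ / 100 ≤ A
  A_lt : A < 2
  e_pos : 0 < ε
  e_le : ε ≤ σ / 1000
  m_pos : 0 < μ
  m_le : μ ≤ σ / 1000

/-- Handle primes are very sparse. -/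
def HSum (A κ σ : ℝ) (M : Set ℕ) : Prop :=
  ∀ θ : ℝ, 0 < θ → ∃ i₀ : ℕ, ∀ i₁ : ℕ, i₀ ≤ i₁ → ∀ S : Finset ℕ,
    (∀ q ∈ S, IsH A κ σ M i₁ q) → ∑ q ∈ S, (q : ℝ) ^ (κ / 2 - 1) ≤ θ

/-- The total weight of `g(s) s^(-ε)` over `s ≥ 2` is small. -/
def GSum (A κ σ ε : ℝ) (M : Set ℕ) : Prop :=
  ∀ θ : ℝ, 0 < θ → ∃ i₀ : ℕ, ∀ i₁ : ℕ, i₀ ≤ i₁ → ∀ g : ℕ → ℝ, Adm A κ σ ε M i₁ g →
    ∀ N : ℕ, ∑ s ∈ Finset.Icc 2 N, g s * (s : ℝ) ^ (-ε) ≤ θ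

/-- Numbers composed of handle primes are very sparse. -/
def DSum (A κ σ : ℝ) (M : Set ℕ) : Prop :=
  ∃ i₀ : ℕ, ∀ i₁ : ℕ, i₀ ≤ i₁ → ∀ S : Finset ℕ,
    (∀ d ∈ S, 0 < d ∧ ∀ p : ℕ, p.Prime → p ∣ d → IsH A κ σ M i₁ p) →
      ∑ d ∈ S, (d : ℝ) ^ (κ / 2 - 1) ≤ 2

/-- Task E1. -/
def S_E1 : Prop :=
  ∀ A κ σ ε μ CM : ℝ, ∀ M : Set ℕ, Par A κ σ ε μ → 0 < CM → Sparse M CM μ →
    HSum A κ σ M ∧ GSum A κ σ ε M ∧ DSum A κ σ M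

open Classical in
/-- Elements of block `i` with a medium divisor composed of handle primes. -/
noncomputable def Bad1 (A κ σ : ℝ) (M : Set ℕ) (i₁ i : ℕ) : Finset ℕ :=
  (B A i).filter (fun n => ∃ d : ℕ, d ∣ n ∧ tt A i ^ (1 / 20 : ℝ) ≤ (d : ℝ) ∧ (d : ℝ) ≤ HH A i ∧
    ∀ p : ℕ, p.Prime → p ∣ d → IsH A κ σ M i₁ p)

open Classical in
/-- Elements of block `i` divisible by a large handle prime whose home is far away or whose handle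
number does not divide them. -/
noncomputable def Bad2 (A κ σ : ℝ) (M : Set ℕ) (i₁ i : ℕ) : Finset ℕ :=
  (B A i).filter (fun n => ∃ c ∈ M, i₁ ≤ c ∧ ∃ n' ∈ Hand A κ σ M c, PF n' ∣ n ∧
    HH A i < (PF n' : ℝ) ∧ ((c : ℝ) < (i : ℝ) ^ (1 - κ / 2) ∨ ¬ n' ∣ n))

/-- Bad elements are few. -/
def BadBound (A κ σ : ℝ) (M : Set ℕ) : Prop :=
  ∃ i₀ : ℕ, ∀ i₁ : ℕ, i₀ ≤ i₁ → ∀ i : ℕ, i₁ ≤ i →
    ((Bad1 A κ σ M i₁ i).card : ℝ) + ((Bad2 A κ σ M i₁ i).card : ℝ) ≤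
      HH A i * (i : ℝ) ^ (-(σ / 100))

/-- Task E2. -/
def S_E2 : Prop :=
  ∀ A κ σ ε μ CM : ℝ, ∀ M : Set ℕ, Par A κ σ ε μ → 0 < CM → Sparse M CM μ → Frac A κ σ →
    DSum A κ σ M → BadBound A κ σ M

open Classical in
/-- Small multiples of rough numbers of normal size. -/
noncomputable def Mid (A σ ε : ℝ) (g : ℕ → ℝ) (i : ℕ) : Finset ℕ :=
  (B A i).filter (fun n => ∃ s u : ℕ, n = s * u ∧ 2 ≤ s ∧ (s : ℝ) ≤ tt A i ^ (1 / 10 : ℝ) ∧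
    Rough (tt A i ^ (σ / 2)) u ∧ g u ≤ phi ε u)

/-- Their total weight is small. -/
def MidBound (A κ σ ε : ℝ) (M : Set ℕ) : Prop :=
  ∀ θ : ℝ, 0 < θ → ∃ i₀ : ℕ, ∀ i₁ : ℕ, i₀ ≤ i₁ → ∀ g : ℕ → ℝ, Adm A κ σ ε M i₁ g →
    ∀ i : ℕ, i₁ ≤ i → ∑ n ∈ Mid A σ ε g i, g n ≤ θ * phi ε (tt A i) * HH A i / Real.log i

/-- Task E3. -/
def S_E3 : Prop :=
  ∀ CR A κ σ ε μ : ℝ, ∀ M : Set ℕ, 0 < CR → RoughBound CR → Par A κ σ ε μ →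
    GSum A κ σ ε M → MidBound A κ σ ε M

open Classical in
/-- Elements with two large factors free of handle primes. -/
noncomputable def Smo (A κ σ : ℝ) (M : Set ℕ) (i₁ i : ℕ) : Finset ℕ :=
  (B A i).filter (fun n => ∃ d a b : ℕ, n = d * a * b ∧ (d : ℝ) ≤ tt A i ^ (1 / 10 : ℝ) ∧
    tt A i ^ (1 / 20 : ℝ) ≤ (a : ℝ) ∧ tt A i ^ (1 / 20 : ℝ) ≤ (b : ℝ) ∧
      ∀ p : ℕ, p.Prime → p ∣ a * b → ¬ IsH A κ σ M i₁ p)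

/-- Their total weight is small. -/
def SmoBound (A κ σ ε : ℝ) (M : Set ℕ) : Prop :=
  ∀ θ : ℝ, 0 < θ → ∃ i₀ : ℕ, ∀ i₁ : ℕ, i₀ ≤ i₁ → ∀ g : ℕ → ℝ, Adm A κ σ ε M i₁ g →
    ∀ i : ℕ, i₁ ≤ i →
      ∑ n ∈ Smo A κ σ M i₁ i, g n ≤ θ * phi ε (tt A i) * HH A i / Real.log i

/-- Task E4. -/
def S_E4 : Prop :=
  ∀ A κ σ ε μ : ℝ, ∀ M : Set ℕ, Par A κ σ ε μ → GSum A κ σ ε M → SmoBound A κ σ ε M

end Pool.Agent.H392Z.MO
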