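import Mathlib
import Pool.Agent.H392Z.MO.Spec2

/-! Basic facts on blocks. -/

set_option autoImplicit false

open Filter Topology Finset

namespace Pool.Agent.H392Z.MO

theorem tt_nonneg (A : ℝ) (i : ℕ) : 0 ≤ tt A i := Real.rpow_nonneg (Nat.cast_nonneg _) _

theorem tt_mono {A : ℝ} (hA : 0 ≤ A) {i j : ℕ} (h : i ≤ j) : tt A i ≤ tt A j :=
  Real.rpow_le_rpow (Nat.cast_nonneg _) (by exact_mod_cast h) hA

theorem mem_B {A : ℝ} {i n : ℕ} : n ∈ B A i ↔ tt A i ≤ n ∧ (n : ℝ) < tt A (i + 1) := by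
  unfold B
  rw [Finset.mem_Ico, Nat.ceil_le, Nat.lt_ceil]

theorem le_blk_iff {A : ℝ} (hA : 0 < A) {i n : ℕ} : i ≤ blk A n ↔ tt A i ≤ n := by
  unfold blk tt
  rw [Nat.le_floor_iff (Real.rpow_nonneg (Nat.cast_nonneg _) _), one_div,
    Real.le_rpow_inv_iff_of_pos (Nat.cast_nonneg _) (Nat.cast_nonneg _) hA]

theorem blk_lt_iff {A : ℝ} (hA : 0 < A) {i n : ℕ} : blk A n < i ↔ (n : ℝ) < tt A i := by
  rw [← not_le, le_blk_iff hA, not_le]

theorem mem_B_iff {A : ℝ} (hA : 0 < A) {i n : ℕ} : n ∈ B A i ↔ blk A n = i := by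
  rw [mem_B, ← le_blk_iff hA, ← blk_lt_iff hA]
  omega

theorem blk_mono {A : ℝ} (hA : 0 < A) {m n : ℕ} (h : m ≤ n) : blk A m ≤ blk A n := by
  rw [le_blk_iff hA]
  exact ((le_blk_iff hA).1 le_rfl).trans (by exact_mod_cast h)

theorem one_le_tt {A : ℝ} (hA : 0 ≤ A) {i : ℕ} (hi : 1 ≤ i) : 1 ≤ tt A i :=
  Real.one_le_rpow (by exact_mod_cast hi) hA

theorem pos_of_mem_B {A : ℝ} (hA : 0 ≤ A) {i n : ℕ} (hi : 1 ≤ i) (h : n ∈ B A i) : 0 < n := by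
  have h1 := (mem_B.1 h).1
  have h2 := one_le_tt hA hi
  have : (0 : ℝ) < n := by linarith
  exact_mod_cast this

theorem HH_pos {A : ℝ} {i : ℕ} (hi : 1 ≤ i) : 0 < HH A i :=
  Real.rpow_pos_of_pos (by exact_mod_cast hi) _

theorem tt_eq {A : ℝ} {i : ℕ} (hi : 1 ≤ i) : tt A i = i * HH A i := by
  unfold tt HH
  have : (0 : ℝ) < i := by exact_mod_cast hi
  rw [Real.rpow_sub this, Real.rpow_one]
  field_simp

theorem HH_le_h {A : ℝ} (hA : 1 ≤ A) {i : ℕ} (hi : 1 ≤ i) :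
    HH A i ≤ tt A (i + 1) - tt A i := by
  rw [tt_eq hi, tt_eq (by omega : 1 ≤ i + 1)]
  have h1 : HH A i ≤ HH A (i + 1) :=
    Real.rpow_le_rpow (Nat.cast_nonneg _) (by push_cast; linarith) (by linarith)
  have h2 : (0 : ℝ) ≤ i := Nat.cast_nonneg _
  push_cast
  nlinarith

theorem h_le {A : ℝ} (hA : 1 ≤ A) (hA2 : A ≤ 2) {i : ℕ} (hi : 1 ≤ i) :
    tt A (i + 1) - tt A i ≤ 4 * HH A i := by
  have hi0 : (1 : ℝ) ≤ i := by exact_mod_cast hi
  have hpos : (0 : ℝ) < i := by linarith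
  have h1 : tt A (i + 1) = tt A i * (1 + 1 / (i : ℝ)) ^ A := by
    unfold tt
    rw [← Real.mul_rpow hpos.le (by positivity)]
    congr 1
    push_cast
    field_simp
  have h2 : (1 + 1 / (i : ℝ)) ^ A ≤ (1 + 1 / (i : ℝ)) ^ (2 : ℝ) :=
    Real.rpow_le_rpow_of_exponent_le (by have : (0 : ℝ) ≤ 1 / i := by positivity
                                         linarith) hA2
  rw [Real.rpow_two] at h2
  have h3 : tt A (i + 1) ≤ tt A i * (1 + 1 / (i : ℝ)) ^ 2 := by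
    rw [h1]; exact mul_le_mul_of_nonneg_left h2 (tt_nonneg _ _)
  have h4 : tt A i * (1 + 1 / (i : ℝ)) ^ 2 = tt A i + HH A i * (2 + 1 / i) := by
    rw [tt_eq hi]; field_simp; ring
  have h5 : 1 / (i : ℝ) ≤ 1 := by rw [div_le_one hpos]; exact hi0
  have h6 := HH_pos (A := A) hi
  nlinarith

theorem one_le_HH {A : ℝ} (hA : 1 ≤ A) {i : ℕ} (hi : 1 ≤ i) : 1 ≤ HH A i :=
  Real.one_le_rpow (by exact_mod_cast hi) (by linarith)

theorem card_B_le {A : ℝ} (hA : 1 ≤ A) (hA2 : A ≤ 2) {i : ℕ} (hi : 1 ≤ i) :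
    ((B A i).card : ℝ) ≤ 5 * HH A i := by
  unfold B
  rw [Nat.card_Ico]
  have h0 : ⌈tt A i⌉₊ ≤ ⌈tt A (i + 1)⌉₊ := Nat.ceil_mono (tt_mono (by linarith) (by omega))
  rw [Nat.cast_sub h0]
  have h1 := Nat.ceil_lt_add_one (tt_nonneg A (i + 1))
  have h2 := Nat.le_ceil (tt A i)
  have h3 := h_le hA hA2 hi
  have h4 := one_le_HH hA hi
  linarith

theorem B_eq_Ival (A : ℝ) (i : ℕ) : B A i = Ival (tt A i) (tt A (i + 1) - tt A i) := by
  unfold B Ival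
  congr 2
  ring

/-- Two elements of a block differ by less than `4 HH`. -/
theorem sub_lt_of_mem_B {A : ℝ} (hA : 1 ≤ A) (hA2 : A ≤ 2) {i m n : ℕ} (hi : 1 ≤ i)
    (hm : m ∈ B A i) (hn : n ∈ B A i) : (n : ℝ) - m < 4 * HH A i := by
  have h1 := mem_B.1 hm
  have h2 := mem_B.1 hn
  have h3 := h_le hA hA2 hi
  linarith [h1.1, h2.2]

/-- A large number divides at most one element of a block. -/
theorem eq_of_dvd_of_mem_B {A : ℝ} (hA : 1 ≤ A) (hA2 : A ≤ 2) {i m n q : ℕ} (hi : 1 ≤ i)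
    (hm : m ∈ B A i) (hn : n ∈ B A i) (hq : 4 * HH A i ≤ q) (h1 : q ∣ m) (h2 : q ∣ n) : m = n := by
  wlog h : m ≤ n generalizing m n
  · exact (this hn hm h2 h1 (by omega)).symm
  have h3 := sub_lt_of_mem_B hA hA2 hi hm hn
  have h4 : q ∣ n - m := Nat.dvd_sub h2 h1
  by_contra hne
  have h5 : q ≤ n - m := Nat.le_of_dvd (by omega) h4
  have h6 : (q : ℝ) ≤ ((n - m : ℕ) : ℝ) := by exact_mod_cast h5
  rw [Nat.cast_sub h] at h6
  linarith

theorem PF_prime {n : ℕ} (hn : 2 ≤ n) : (PF n).Prime ∧ PF n ∣ n := by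
  have hne : n.primeFactors.Nonempty := Nat.nonempty_primeFactors.2 (by omega)
  obtain ⟨p, hp, h⟩ := Finset.exists_mem_eq_sup n.primeFactors hne id
  have : PF n = p := h
  rw [this]
  exact ⟨Nat.prime_of_mem_primeFactors hp, Nat.dvd_of_mem_primeFactors hp⟩

theorem le_PF {n p : ℕ} (hn : n ≠ 0) (hp : p.Prime) (h : p ∣ n) : p ≤ PF n :=
  Finset.le_sup (f := id) (Nat.mem_primeFactors.2 ⟨hp, h, hn⟩)

theorem PF_of_prime {p : ℕ} (hp : p.Prime) : PF p = p := by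
  unfold PF
  rw [hp.primeFactors]
  simp

theorem two_le_of_PF {n : ℕ} (h : 1 ≤ PF n) : 2 ≤ n := by
  by_contra hn
  have : n = 0 ∨ n = 1 := by omega
  rcases this with rfl | rfl <;> simp [PF] at h

theorem one_le_kk {κ : ℝ} (hκ : 0 ≤ κ) {c : ℕ} (hc : 1 ≤ c) : 1 ≤ kk κ c := by
  unfold kk
  rw [Nat.one_le_floor_iff]
  exact Real.one_le_rpow (by exact_mod_cast hc) (by linarith)

theorem kk_mono {κ : ℝ} (hκ : 0 ≤ κ) {c d : ℕ} (h : c ≤ d) : kk κ c ≤ kk κ d :=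
  Nat.floor_mono (Real.rpow_le_rpow (Nat.cast_nonneg _) (by exact_mod_cast h) (by linarith))

theorem mem_Hand {A κ σ : ℝ} {M : Set ℕ} {c n : ℕ} : n ∈ Hand A κ σ M c ↔
    n ∈ B A c ∧ Rough (tt A c ^ σ) n ∧ kk κ c ≤ blk A (PF n) ∧
      ∀ c' ∈ M, 1 ≤ c' → c' < c → ∀ n' ∈ B A c', ¬ PF n ∣ n' := by
  classical
  unfold Hand
  rw [Finset.mem_filter]

theorem mem_Free {A κ : ℝ} {M : Set ℕ} {y : ℝ} {i p : ℕ} : p ∈ Free A κ M y i ↔
    p ∈ B A i ∧ p.Prime ∧ ¬ Prot A κ M y p := by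
  classical
  unfold Free
  rw [Finset.mem_filter]

theorem Act_of_mem {A κ σ : ℝ} {M : Set ℕ} {y : ℝ} {i : ℕ} (h : i ∈ M) :
    Act A κ σ M y i = Hand A κ σ M i := by
  unfold Act; rw [if_pos h]

theorem Act_of_not_mem {A κ σ : ℝ} {M : Set ℕ} {y : ℝ} {i : ℕ} (h : i ∉ M) :
    Act A κ σ M y i = Free A κ M y i := by
  unfold Act; rw [if_neg h]

theorem Act_subset {A κ σ : ℝ} {M : Set ℕ} {y : ℝ} {i n : ℕ} (h : n ∈ Act A κ σ M y i) :
    n ∈ B A i := by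
  by_cases hi : i ∈ M
  · rw [Act_of_mem hi] at h; exact (mem_Hand.1 h).1
  · rw [Act_of_not_mem hi] at h; exact (mem_Free.1 h).1

/-- The largest prime factor of a handle number is a prime that divides it. -/
theorem hand_prime {A κ σ : ℝ} {M : Set ℕ} {c n : ℕ} (hA : 0 < A) (hκ : 0 ≤ κ) (hc : 1 ≤ c)
    (h : n ∈ Hand A κ σ M c) : (PF n).Prime ∧ PF n ∣ n := by
  have h1 := (mem_Hand.1 h).2.2.1
  have h2 := (le_blk_iff hA).1 ((one_le_kk hκ hc).trans h1)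
  have h3 := one_le_tt hA.le (le_refl 1)
  have h4 : (1 : ℝ) ≤ PF n := h3.trans h2
  exact PF_prime (two_le_of_PF (by exact_mod_cast h4))

/-- For large `c` the number `(kk c)^A` is beyond `4 HH c`, and its square is beyond
`t_(c+1)`. -/
theorem kk_large {A κ : ℝ} (hκ : 0 < κ) (hκ1 : κ ≤ 1 / 100) (hA : 2 - κ / 100 ≤ A) (hA2 : A < 2) :
    ∃ c₀ : ℕ, 1 ≤ c₀ ∧ ∀ c : ℕ, c₀ ≤ c → 4 * HH A c ≤ tt A (kk κ c) ∧
      tt A (c + 1) ≤ tt A (kk κ c) ^ 2 := by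
  have ht : Tendsto (fun c : ℕ => (c : ℝ) ^ κ) atTop atTop :=
    (tendsto_rpow_atTop hκ).comp tendsto_natCast_atTop_atTop
  obtain ⟨c₀, hc₀⟩ := eventually_atTop.1 (ht.eventually_ge_atTop 16)
  refine ⟨max c₀ 1, le_max_right _ _, fun c hc => ?_⟩
  have hc1 : 1 ≤ c := (le_max_right _ _).trans hc
  have h16 := hc₀ c ((le_max_left _ _).trans hc)
  have hcr : (1 : ℝ) ≤ c := by exact_mod_cast hc1
  have hcp : (0 : ℝ) < c := by linarith
  have hs : (1 : ℝ) ≤ (c : ℝ) ^ (1 / 2 : ℝ) := Real.one_le_rpow hcr (by norm_num)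
  have hk : (c : ℝ) ^ (1 / 2 + κ) - 1 ≤ kk κ c := by
    unfold kk
    linarith [Nat.lt_floor_add_one ((c : ℝ) ^ (1 / 2 + κ))]
  rw [Real.rpow_add hcp] at hk
  have hk2 : 4 * (c : ℝ) ^ (1 / 2 : ℝ) ≤ kk κ c := by nlinarith
  have hsq : ((c : ℝ) ^ (1 / 2 : ℝ)) ^ 2 = c := by
    rw [← Real.rpow_natCast, ← Real.rpow_mul hcp.le]; norm_num
  constructor
  · have h1 : (4 * (c : ℝ) ^ (1 / 2 : ℝ)) ^ A ≤ tt A (kk κ c) :=
      Real.rpow_le_rpow (by positivity) hk2 (by linarith)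
    rw [Real.mul_rpow (by norm_num) (by positivity), ← Real.rpow_mul hcp.le] at h1
    have h2 : (4 : ℝ) ≤ (4 : ℝ) ^ A := by
      have := Real.rpow_le_rpow_of_exponent_le (by norm_num : (1 : ℝ) ≤ 4) (by linarith : 1 ≤ A)
      rwa [Real.rpow_one] at this
    have h3 : HH A c ≤ (c : ℝ) ^ (1 / 2 * A) :=
      Real.rpow_le_rpow_of_exponent_le hcr (by linarith)
    have h4 := HH_pos (A := A) hc1
    nlinarith
  · unfold tt
    rw [← Real.rpow_natCast, ← Real.rpow_mul (Nat.cast_nonneg _), mul_comm,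
      Real.rpow_mul (Nat.cast_nonneg _)]
    refine Real.rpow_le_rpow (Nat.cast_nonneg _) ?_ (by linarith)
    rw [Real.rpow_natCast]
    push_cast
    nlinarith

end Pool.Agent.H392Z.MO
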