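import Mathlib
import Pool.Agent.H392Z.MO.Basic

/-! The recursion that defines the function can be solved. -/

set_option autoImplicit false

open Filter Topology Finset

namespace Pool.Agent.H392Z.MO

theorem exists_fix {α β : Type} [Inhabited β] (r : α → α → Prop) (hr : WellFounded r)
    (Ψ : (α → β) → α → β)
    (h : ∀ v v' a, (∀ b, r b a → v b = v' b) → Ψ v a = Ψ v' a) : ∃ v : α → β, ∀ a, v a = Ψ v a := by
  classical
  let F : (a : α) → ((b : α) → r b a → β) → β :=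
    fun a rc => Ψ (fun b => if hb : r b a then rc b hb else default) a
  refine ⟨hr.fix F, fun a => ?_⟩
  rw [WellFounded.fix_eq]
  refine h _ _ _ (fun b hb => ?_)
  simp only [dif_pos hb]

open Classical in
/-- The completely multiplicative extension, with value zero at primes up to `y`. -/
noncomputable def ext (y : ℝ) (v : ℕ → ℂ) (n : ℕ) : ℂ :=
  (n.primeFactorsList.map (fun p : ℕ => if (p : ℝ) ≤ y then 0 else v p)).prod

theorem ext_one (y : ℝ) (v : ℕ → ℂ) : ext y v 1 = 1 := by simp [ext]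

theorem ext_mul (y : ℝ) (v : ℕ → ℂ) {m n : ℕ} (hm : 0 < m) (hn : 0 < n) :
    ext y v (m * n) = ext y v m * ext y v n := by
  unfold ext
  rw [← List.prod_append, ← List.map_append]
  exact ((Nat.perm_primeFactorsList_mul hm.ne' hn.ne').map _).prod_eq

theorem ext_prime_le (y : ℝ) (v : ℕ → ℂ) {p : ℕ} (hp : p.Prime) (h : (p : ℝ) ≤ y) :
    ext y v p = 0 := by
  simp [ext, Nat.primeFactorsList_prime hp, h]

theorem ext_prime_gt (y : ℝ) (v : ℕ → ℂ) {p : ℕ} (hp : p.Prime) (h : y < (p : ℝ)) :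
    ext y v p = v p := by
  simp [ext, Nat.primeFactorsList_prime hp, not_le.2 h]

theorem ext_zero (y : ℝ) (v : ℕ → ℂ) {p n : ℕ} (hn : 0 < n) (hp : p.Prime) (hd : p ∣ n)
    (h : (p : ℝ) ≤ y) : ext y v n = 0 := by
  obtain ⟨k, rfl⟩ := hd
  rw [ext_mul y v hp.pos (Nat.pos_of_mul_pos_left hn), ext_prime_le y v hp h, zero_mul]

theorem ext_congr (y : ℝ) (v v' : ℕ → ℂ) {n : ℕ}
    (h : ∀ p : ℕ, p.Prime → p ∣ n → v p = v' p) : ext y v n = ext y v' n := by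
  unfold ext
  congr 1
  refine List.map_congr_left (fun p hp => ?_)
  rw [h p (Nat.prime_of_mem_primeFactorsList hp) (Nat.dvd_of_mem_primeFactorsList hp)]

theorem ext_ne_zero (y : ℝ) (v : ℕ → ℂ) {n : ℕ}
    (h : ∀ p : ℕ, p.Prime → p ∣ n → y < (p : ℝ) ∧ v p ≠ 0) : ext y v n ≠ 0 := by
  unfold ext
  refine List.prod_ne_zero (fun h0 => ?_)
  obtain ⟨p, hp, h1⟩ := List.mem_map.1 h0
  have h2 := h p (Nat.prime_of_mem_primeFactorsList hp) (Nat.dvd_of_mem_primeFactorsList hp)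
  rw [if_neg (not_le.2 h2.1)] at h1
  exact h2.2 h1

/-- Standing assumptions. -/
structure Ctx (A κ σ : ℝ) (i₁ : ℕ) : Prop where
  A1 : 1 ≤ A
  A2 : A ≤ 2
  k0 : 0 ≤ κ
  s0 : 0 ≤ σ
  s1 : σ < 1
  i4 : 4 ≤ i₁
  big : ∀ c : ℕ, i₁ ≤ c → 4 * HH A c ≤ tt A (kk κ c) ∧ tt A (c + 1) ≤ tt A (kk κ c) ^ 2

theorem exists_ctx {A κ σ : ℝ} (h1 : 0 < σ) (h2 : σ ≤ κ) (h3 : κ ≤ 1 / 100)
    (h4 : 2 - σ / 100 ≤ A) (h5 : A < 2) : ∃ i₀ : ℕ, ∀ i₁, i₀ ≤ i₁ → Ctx A κ σ i₁ := by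
  obtain ⟨c₀, -, hc₀⟩ := kk_large (A := A) (κ := κ) (by linarith) h3 (by linarith) h5
  refine ⟨max c₀ 4, fun i₁ hi => ⟨by linarith, h5.le, by linarith, h1.le, by linarith,
    (le_max_right _ _).trans hi, fun c hc => hc₀ c (((le_max_left _ _).trans hi).trans hc)⟩⟩

section
variable {A κ σ : ℝ} {M : Set ℕ} {i₁ : ℕ}

theorem Ctx.hand_prime (X : Ctx A κ σ i₁) {c n : ℕ} (hc : i₁ ≤ c) (h : n ∈ Hand A κ σ M c) :
    (PF n).Prime ∧ PF n ∣ n :=
  Pool.Agent.H392Z.MO.hand_prime (by linarith [X.A1]) X.k0 (by linarith [X.i4]) h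

theorem Ctx.pos (X : Ctx A κ σ i₁) {i n : ℕ} (hi : i₁ ≤ i) (h : n ∈ B A i) : 0 < n :=
  pos_of_mem_B (by linarith [X.A1]) (by linarith [X.i4]) h

theorem Ctx.hand_le (X : Ctx A κ σ i₁) {c n : ℕ} (h : n ∈ Hand A κ σ M c) :
    tt A (kk κ c) ≤ PF n :=
  (le_blk_iff (by linarith [X.A1])).1 (mem_Hand.1 h).2.2.1

theorem Ctx.hand_eq (X : Ctx A κ σ i₁) {c n n' : ℕ} (hc : i₁ ≤ c) (h : n ∈ Hand A κ σ M c)
    (h' : n' ∈ B A c) (hd : PF n ∣ n') : n = n' :=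
  eq_of_dvd_of_mem_B X.A1 X.A2 (by linarith [X.i4]) (mem_Hand.1 h).1 h'
    ((X.big c hc).1.trans (X.hand_le h)) (X.hand_prime hc h).2 hd

theorem Ctx.home_unique (X : Ctx A κ σ i₁) {c c' n n' : ℕ} (hM : c ∈ M) (hM' : c' ∈ M)
    (hc : i₁ ≤ c) (hc' : i₁ ≤ c') (h : n ∈ Hand A κ σ M c) (h' : n' ∈ Hand A κ σ M c')
    (he : PF n = PF n') : c = c' ∧ n = n' := by
  have h4 := X.i4
  have d := (X.hand_prime hc h).2
  have d' := (X.hand_prime hc' h').2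
  rcases lt_trichotomy c c' with hlt | heq | hlt
  · exact absurd (he ▸ d) ((mem_Hand.1 h').2.2.2 c hM (by omega) hlt n (mem_Hand.1 h).1)
  · subst heq
    exact ⟨rfl, X.hand_eq hc h (mem_Hand.1 h').1 (he ▸ d')⟩
  · exact absurd (he ▸ d') ((mem_Hand.1 h).2.2.2 c' hM' (by omega) hlt n' (mem_Hand.1 h').1)

theorem Ctx.y_le (X : Ctx A κ σ i₁) {c : ℕ} (hc : i₁ ≤ c) : tt A i₁ ^ σ ≤ tt A c ^ σ :=
  Real.rpow_le_rpow (tt_nonneg _ _) (tt_mono (by linarith [X.A1]) hc) X.s0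

theorem Ctx.hand_rough (X : Ctx A κ σ i₁) {c n p : ℕ} (hc : i₁ ≤ c) (h : n ∈ Hand A κ σ M c)
    (hp : p.Prime) (hd : p ∣ n) : tt A i₁ ^ σ < p :=
  (X.y_le hc).trans_lt ((mem_Hand.1 h).2.1 p hp hd)

theorem Ctx.y_lt (X : Ctx A κ σ i₁) : tt A i₁ ^ σ < tt A i₁ := by
  have h1 : (1 : ℝ) < tt A i₁ :=
    Real.one_lt_rpow (by have := X.i4; exact_mod_cast (by omega : 1 < i₁)) (by linarith [X.A1])
  have := Real.rpow_lt_rpow_of_exponent_lt h1 X.s1
  rwa [Real.rpow_one] at this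

/-- The cofactor of a handle number is small. -/
theorem Ctx.cof_lt (X : Ctx A κ σ i₁) {c n p : ℕ} (hc : i₁ ≤ c) (h : n ∈ Hand A κ σ M c)
    (hd : p ∣ n / PF n) : blk A p < kk κ c := by
  have hA : 0 < A := by linarith [X.A1]
  obtain ⟨hq, hqd⟩ := X.hand_prime hc h
  have hn := X.pos hc (mem_Hand.1 h).1
  have hm : 0 < n / PF n := Nat.div_pos (Nat.le_of_dvd hn hqd) hq.pos
  have h1 : (p : ℝ) ≤ (n / PF n : ℕ) := by exact_mod_cast Nat.le_of_dvd hm hd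
  have h2 : ((n / PF n : ℕ) : ℝ) * PF n = n := by exact_mod_cast Nat.div_mul_cancel hqd
  have h3 := (mem_B.1 (mem_Hand.1 h).1).2
  have h4 := (X.big c hc).2
  have h5 := X.hand_le h
  rw [blk_lt_iff hA]
  by_contra hcon
  push Not at hcon
  have h6 := tt_nonneg A (kk κ c)
  have h7 : tt A (kk κ c) * tt A (kk κ c) ≤ ((n / PF n : ℕ) : ℝ) * PF n :=
    mul_le_mul (hcon.trans h1) h5 h6 (Nat.cast_nonneg _)
  nlinarith

theorem prot_of {y : ℝ} {c n p : ℕ} (hM : c ∈ M) (hn : n ∈ B A c) (hn0 : 0 < n) (hd : p ∣ n)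
    (hr : ∀ q : ℕ, q.Prime → q ∣ n → y < q) (hk : kk κ c ≤ blk A p) : Prot A κ M y p := by
  obtain ⟨r, rfl⟩ := hd
  refine ⟨c, hM, r, ?_, by rwa [mul_comm], hk⟩
  by_cases h1 : r = 1
  · exact Or.inl h1
  · right
    have hr0 : 0 < r := Nat.pos_of_mul_pos_left hn0
    have h2 := hr r.minFac (Nat.minFac_prime h1) ((Nat.minFac_dvd r).mul_left p)
    have h3 : (r.minFac : ℝ) ≤ r := by exact_mod_cast Nat.minFac_le hr0
    linarith

theorem Ctx.prot_of_isH (X : Ctx A κ σ i₁) {p : ℕ} (h : IsH A κ σ M i₁ p) :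
    Prot A κ M (tt A i₁ ^ σ) p := by
  obtain ⟨c, hM, hc, n, hn, rfl⟩ := h
  exact prot_of hM (mem_Hand.1 hn).1 (X.pos hc (mem_Hand.1 hn).1) (X.hand_prime hc hn).2
    (fun q hq hd => X.hand_rough hc hn hq hd) (mem_Hand.1 hn).2.2.1

end

open Classical in
/-- The home block of a handle prime. -/
noncomputable def hc (A κ σ : ℝ) (M : Set ℕ) (i₁ q : ℕ) : ℕ :=
  if h : IsH A κ σ M i₁ q then h.choose else 0

theorem hc_spec {A κ σ : ℝ} {M : Set ℕ} {i₁ q : ℕ} (h : IsH A κ σ M i₁ q) :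
    hc A κ σ M i₁ q ∈ M ∧ i₁ ≤ hc A κ σ M i₁ q ∧
      ∃ n ∈ Hand A κ σ M (hc A κ σ M i₁ q), PF n = q := by
  unfold hc
  rw [dif_pos h]
  exact h.choose_spec

open Classical in
/-- The handle number of a handle prime. -/
noncomputable def hn (A κ σ : ℝ) (M : Set ℕ) (i₁ q : ℕ) : ℕ :=
  if h : IsH A κ σ M i₁ q then (hc_spec h).2.2.choose else 0

theorem hn_spec {A κ σ : ℝ} {M : Set ℕ} {i₁ q : ℕ} (h : IsH A κ σ M i₁ q) :
    hn A κ σ M i₁ q ∈ Hand A κ σ M (hc A κ σ M i₁ q) ∧ PF (hn A κ σ M i₁ q) = q := by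
  unfold hn
  rw [dif_pos h]
  exact (hc_spec h).2.2.choose_spec

/-- A prime that is active in its own block. -/
def Own (A κ σ : ℝ) (M : Set ℕ) (i₁ p : ℕ) : Prop :=
  i₁ ≤ blk A p ∧ p ∈ Act A κ σ M (tt A i₁ ^ σ) (blk A p)

open Classical in
/-- The rank of a prime. -/
noncomputable def rk (A κ σ : ℝ) (M : Set ℕ) (i₁ p : ℕ) : ℕ × ℕ :=
  if IsH A κ σ M i₁ p then (2 * kk κ (hc A κ σ M i₁ p) + 1, hc A κ σ M i₁ p)
  else if Own A κ σ M i₁ p then (2 * (blk A p + 1), 0) else (0, 0)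

/-- Lexicographic order. -/
def lx (a b : ℕ × ℕ) : Prop := a.1 < b.1 ∨ (a.1 = b.1 ∧ a.2 < b.2)

theorem lx_wf : WellFounded lx := by
  have h : WellFounded (Prod.Lex (· < ·) (· < ·) : ℕ × ℕ → ℕ × ℕ → Prop) :=
    WellFounded.prod_lex wellFounded_lt wellFounded_lt
  refine Subrelation.wf (fun {a b} hab => ?_) h
  exact Prod.lex_iff.2 hab

section
variable {A κ σ : ℝ} {M : Set ℕ} {i₁ : ℕ}

theorem own_free {p : ℕ} (hp : p.Prime) (h1 : ¬ IsH A κ σ M i₁ p) (h2 : Own A κ σ M i₁ p) :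
    blk A p ∉ M ∧ p ∈ Free A κ M (tt A i₁ ^ σ) (blk A p) := by
  have h3 : blk A p ∉ M := by
    intro hM
    have h4 := h2.2
    rw [Act_of_mem hM] at h4
    exact h1 ⟨_, hM, h2.1, p, h4, PF_of_prime hp⟩
  have h4 := h2.2
  rw [Act_of_not_mem h3] at h4
  exact ⟨h3, h4⟩

theorem kk_hc_le {q : ℕ} (h : IsH A κ σ M i₁ q) : kk κ (hc A κ σ M i₁ q) ≤ blk A q := by
  have h1 := (mem_Hand.1 (hn_spec h).1).2.2.1
  rwa [(hn_spec h).2] at h1

/-- The first component of the rank is at most `2 (blk p + 1)`. -/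
theorem rk_le (p : ℕ) : (rk A κ σ M i₁ p).1 ≤ 2 * (blk A p + 1) := by
  unfold rk
  split_ifs with h1 h2
  · have := kk_hc_le h1
    show 2 * kk κ (hc A κ σ M i₁ p) + 1 ≤ _
    omega
  · exact le_rfl
  · exact Nat.zero_le _

theorem rk_lt_of_not_own {p : ℕ} (h : ¬ Own A κ σ M i₁ p) :
    (rk A κ σ M i₁ p).1 < 2 * (blk A p + 1) := by
  unfold rk
  split_ifs with h1
  · have := kk_hc_le h1
    show 2 * kk κ (hc A κ σ M i₁ p) + 1 < _
    omega
  · show 0 < _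
    omega

theorem Ctx.dep_nonmem (X : Ctx A κ σ i₁) {i n p : ℕ} (hi : i₁ ≤ i) (hn : n ∈ B A i)
    (hA : n ∉ Act A κ σ M (tt A i₁ ^ σ) i) (hd : p ∣ n) :
    lx (rk A κ σ M i₁ p) (2 * (i + 1), 0) := by
  have hA0 : 0 < A := by linarith [X.A1]
  have h4 := X.i4
  left
  show _ < 2 * (i + 1)
  have h1 : blk A p ≤ i := by
    rw [← (mem_B_iff hA0).1 hn]
    exact blk_mono hA0 (Nat.le_of_dvd (X.pos hi hn) hd)
  rcases h1.lt_or_eq with h2 | h2
  · have := rk_le (A := A) (κ := κ) (σ := σ) (M := M) (i₁ := i₁) p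
    omega
  · have hpB : p ∈ B A i := (mem_B_iff hA0).2 h2
    have h3 : p = n := by
      refine eq_of_dvd_of_mem_B X.A1 X.A2 (by omega) hpB hn ?_ dvd_rfl hd
      have h5 := (mem_B.1 hpB).1
      rw [tt_eq (by omega)] at h5
      have h6 : (4 : ℝ) ≤ i := by exact_mod_cast (by omega : 4 ≤ i)
      have h7 := HH_pos (A := A) (by omega : 1 ≤ i)
      nlinarith
    have h5 : ¬ Own A κ σ M i₁ p := fun ho => hA (by have := ho.2; rwa [h2, h3] at this)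
    have := rk_lt_of_not_own h5
    omega

theorem Ctx.dep_mem (X : Ctx A κ σ i₁) {i n p : ℕ} (hi : i₁ ≤ i) (hM : i ∈ M) (hn : n ∈ B A i)
    (hA : n ∉ Hand A κ σ M i) (hr : ∀ q : ℕ, q.Prime → q ∣ n → tt A i₁ ^ σ < q) (hp : p.Prime)
    (hd : p ∣ n) : lx (rk A κ σ M i₁ p) (2 * kk κ i + 1, i) := by
  have h4 := X.i4
  unfold rk
  split_ifs with h1 h2
  · obtain ⟨hcM, hci, -⟩ := hc_spec h1
    obtain ⟨hH, hP⟩ := hn_spec h1
    have h5 : hc A κ σ M i₁ p < i := by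
      rcases lt_trichotomy (hc A κ σ M i₁ p) i with h | h | h
      · exact h
      · exfalso
        rw [h] at hH
        exact hA (X.hand_eq hi hH hn (hP.symm ▸ hd) ▸ hH)
      · exact absurd (hP.symm ▸ hd) ((mem_Hand.1 hH).2.2.2 i hM (by omega) h n hn)
    have h6 := kk_mono X.k0 h5.le
    rcases h6.lt_or_eq with h7 | h7
    · left
      show 2 * kk κ (hc A κ σ M i₁ p) + 1 < 2 * kk κ i + 1
      omega
    · right
      exact ⟨by show 2 * kk κ (hc A κ σ M i₁ p) + 1 = 2 * kk κ i + 1; omega, h5⟩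
  · left
    show 2 * (blk A p + 1) < 2 * kk κ i + 1
    by_contra hcon
    exact (mem_Free.1 (own_free hp h1 h2).2).2.2 (prot_of hM hn (X.pos hi hn) hd hr (by omega))
  · left
    show 0 < 2 * kk κ i + 1
    omega

theorem Ctx.DD_nonmem (X : Ctx A κ σ i₁) (s : ℕ → ℝ) {i : ℕ} (hi : i₁ ≤ i) (v v' : ℕ → ℂ)
    (h : ∀ p, lx (rk A κ σ M i₁ p) (2 * (i + 1), 0) → v p = v' p) :
    DD A κ σ M i₁ s (ext (tt A i₁ ^ σ) v) i = DD A κ σ M i₁ s (ext (tt A i₁ ^ σ) v') i := by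
  have hA0 : 0 < A := by linarith [X.A1]
  unfold DD
  congr 1
  · congr 1
    refine Finset.sum_congr rfl (fun n hn => ext_congr _ _ _ (fun p _ hd => h p ?_))
    rw [Finset.mem_Ico, Nat.lt_ceil, ← blk_lt_iff hA0] at hn
    have h1 : blk A p ≤ blk A n := blk_mono hA0 (Nat.le_of_dvd hn.1 hd)
    have h2 := rk_le (A := A) (κ := κ) (σ := σ) (M := M) (i₁ := i₁) p
    left
    show _ < 2 * (i + 1)
    omega
  · refine Finset.sum_congr rfl (fun n hn => ext_congr _ _ _ (fun p _ hd => h p ?_))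
    rw [Finset.mem_sdiff] at hn
    exact X.dep_nonmem hi hn.1 hn.2 hd

theorem Ctx.DD_mem (X : Ctx A κ σ i₁) (s : ℕ → ℝ) {i : ℕ} (hi : i₁ ≤ i) (hM : i ∈ M)
    (hs : s i = 0) (v v' : ℕ → ℂ)
    (h : ∀ p, lx (rk A κ σ M i₁ p) (2 * kk κ i + 1, i) → v p = v' p) :
    DD A κ σ M i₁ s (ext (tt A i₁ ^ σ) v) i = DD A κ σ M i₁ s (ext (tt A i₁ ^ σ) v') i := by
  unfold DD
  rw [hs]
  simp only [Complex.ofReal_zero, zero_mul, zero_add]
  refine Finset.sum_congr rfl (fun n hn => ?_)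
  rw [Finset.mem_sdiff, Act_of_mem hM] at hn
  by_cases hr : ∀ q : ℕ, q.Prime → q ∣ n → tt A i₁ ^ σ < q
  · exact ext_congr _ _ _ (fun p hp hd => h p (X.dep_mem hi hM hn.1 hn.2 hr hp hd))
  · push Not at hr
    obtain ⟨q, hq, hd, hle⟩ := hr
    rw [ext_zero _ _ (X.pos hi hn.1) hq hd hle, ext_zero _ _ (X.pos hi hn.1) hq hd hle]

end

open Classical in
/-- The recursion step. -/
noncomputable def stp (A κ σ : ℝ) (M : Set ℕ) (i₁ : ℕ) (s : ℕ → ℝ) (Φ : ℕ → ℂ → ℕ → ℂ)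
    (v : ℕ → ℂ) (p : ℕ) : ℂ :=
  if p.Prime then
    if IsH A κ σ M i₁ p then
      Φ (hc A κ σ M i₁ p) (DD A κ σ M i₁ s (ext (tt A i₁ ^ σ) v) (hc A κ σ M i₁ p))
        (hn A κ σ M i₁ p) / ext (tt A i₁ ^ σ) v (hn A κ σ M i₁ p / p)
    else if Own A κ σ M i₁ p then
      Φ (blk A p) (DD A κ σ M i₁ s (ext (tt A i₁ ^ σ) v) (blk A p)) p
    else 1 / (p : ℂ)
  else 0

theorem conA : S_ConA := by
  intro A κ σ M h1 h2 h3 h4 h5
  obtain ⟨i₀, hi₀⟩ := exists_ctx h1 h2 h3 h4 h5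
  refine ⟨i₀, fun i₁ hi₁ s hs Φ hΦ => ?_⟩
  have X := hi₀ i₁ hi₁
  have hA0 : 0 < A := by linarith [X.A1]
  obtain ⟨v, hv⟩ := exists_fix (fun p q : ℕ => lx (rk A κ σ M i₁ p) (rk A κ σ M i₁ q))
    (InvImage.wf _ lx_wf) (stp A κ σ M i₁ s Φ) (by
      intro v v' p h
      unfold stp
      split_ifs with hp hH hO
      · have hrk : rk A κ σ M i₁ p = (2 * kk κ (hc A κ σ M i₁ p) + 1, hc A κ σ M i₁ p) := by
          unfold rk; rw [if_pos hH]
        rw [hrk] at h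
        obtain ⟨hcM, hci, -⟩ := hc_spec hH
        obtain ⟨hHn, hP⟩ := hn_spec hH
        rw [X.DD_mem s hci hcM (hs _ hcM) v v' h]
        congr 1
        refine ext_congr _ _ _ (fun q _ hd => h q ?_)
        have h6 := X.cof_lt hci hHn (p := q) (by rwa [hP])
        have h7 := rk_le (A := A) (κ := κ) (σ := σ) (M := M) (i₁ := i₁) q
        left
        show _ < 2 * kk κ (hc A κ σ M i₁ p) + 1
        omega
      · have hrk : rk A κ σ M i₁ p = (2 * (blk A p + 1), 0) := by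
          unfold rk; rw [if_neg hH, if_pos hO]
        rw [hrk] at h
        rw [X.DD_nonmem s hO.1 v v' h]
      · rfl
      · rfl)
  have hne : ∀ p : ℕ, p.Prime → v p ≠ 0 := by
    intro p
    induction p using Nat.strong_induction_on with
    | _ p ih =>
      intro hp
      rw [hv p]
      unfold stp
      rw [if_pos hp]
      split_ifs with hH hO
      · obtain ⟨hcM, hci, -⟩ := hc_spec hH
        obtain ⟨hHn, hP⟩ := hn_spec hH
        refine div_ne_zero (hΦ _ _ _) (ext_ne_zero _ _ (fun q hq hd => ⟨?_, ih q ?_ hq⟩))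
        · refine X.hand_rough hci hHn hq (hd.trans (Nat.div_dvd_of_dvd ?_))
          have := (X.hand_prime hci hHn).2
          rwa [hP] at this
        · have h6 := X.cof_lt hci hHn (p := q) (by rwa [hP])
          have h7 := kk_hc_le hH
          by_contra hcon
          have := blk_mono hA0 (not_lt.1 hcon)
          omega
      · exact hΦ _ _ _
      · exact one_div_ne_zero (by exact_mod_cast hp.ne_zero)
  refine ⟨ext (tt A i₁ ^ σ) v, ext_one _ _, fun m n hm hn => ext_mul _ _ hm hn,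
    fun p hp h => ext_prime_le _ _ hp h, fun p hp hy hH hO => ?_, fun i hi n hn' => ?_⟩
  · rw [ext_prime_gt _ _ hp hy, hv p]
    unfold stp
    rw [if_pos hp, if_neg hH, if_neg (show ¬ Own A κ σ M i₁ p from hO)]
  · by_cases hM : i ∈ M
    · rw [Act_of_mem hM] at hn'
      obtain ⟨hq, hqd⟩ := X.hand_prime hi hn'
      have hH : IsH A κ σ M i₁ (PF n) := ⟨i, hM, hi, n, hn', rfl⟩
      obtain ⟨hcM, hci, -⟩ := hc_spec hH
      obtain ⟨hHn, hP⟩ := hn_spec hH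
      obtain ⟨e1, e2⟩ := X.home_unique hcM hM hci hi hHn hn' hP
      have hn0 := X.pos hi (mem_Hand.1 hn').1
      have hm : 0 < n / PF n := Nat.div_pos (Nat.le_of_dvd hn0 hqd) hq.pos
      have h6 : ext (tt A i₁ ^ σ) v (n / PF n) ≠ 0 :=
        ext_ne_zero _ _ (fun q hq' hd => ⟨X.hand_rough hi hn' hq'
          (hd.trans (Nat.div_dvd_of_dvd hqd)), hne q hq'⟩)
      have h7 : ext (tt A i₁ ^ σ) v n = v (PF n) * ext (tt A i₁ ^ σ) v (n / PF n) := by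
        rw [← ext_prime_gt _ v hq (X.hand_rough hi hn' hq hqd), ← ext_mul _ _ hq.pos hm,
          Nat.mul_div_cancel' hqd]
      rw [h7, hv (PF n)]
      unfold stp
      rw [if_pos hq, if_pos hH, e1, e2, div_mul_cancel₀ _ h6]
    · have hF := hn'
      rw [Act_of_not_mem hM] at hF
      obtain ⟨hB, hp, hP⟩ := mem_Free.1 hF
      have hb : blk A n = i := (mem_B_iff hA0).1 hB
      have hH : ¬ IsH A κ σ M i₁ n := fun h => hP (X.prot_of_isH h)
      have hO : Own A κ σ M i₁ n := ⟨hb ▸ hi, hb.symm ▸ hn'⟩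
      have hy : tt A i₁ ^ σ < n :=
        X.y_lt.trans_le ((tt_mono hA0.le hi).trans (mem_B.1 hB).1)
      rw [ext_prime_gt _ _ hp hy, hv n]
      unfold stp
      rw [if_pos hp, if_neg hH, if_pos hO, hb]

end Pool.Agent.H392Z.MO
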