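import Mathlib
import Pool.Agent.H392Z.MO.Basic

/-! The a priori estimate from its four parts. -/

set_option autoImplicit false

open Filter Topology Finset

namespace Pool.Agent.H392Z.MO

theorem window {Z : ℝ} (hZ : 1 < Z) {n : ℕ} (hn : Z ≤ n)
    (h : ∀ p : ℕ, p.Prime → p ∣ n → (p : ℝ) < Z) : ∃ d : ℕ, d ∣ n ∧ Z ≤ d ∧ (d : ℝ) < Z ^ 2 := by
  classical
  have hex : ∃ d : ℕ, d ∣ n ∧ Z ≤ d := ⟨n, dvd_rfl, hn⟩
  obtain ⟨hd, hZd⟩ := Nat.find_spec hex
  set d := Nat.find hex with hdd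
  have hd1 : 1 < d := by
    have : (1 : ℝ) < d := by linarith
    exact_mod_cast this
  have hp := Nat.minFac_prime hd1.ne'
  obtain ⟨k, hk⟩ := Nat.minFac_dvd d
  have hk1 : k < d := by
    have h2 := hp.two_le
    have h3 : 0 < k := by
      rcases Nat.eq_zero_or_pos k with h | h
      · rw [h, mul_zero] at hk; omega
      · exact h
    nlinarith
  have hk2 := Nat.find_min hex hk1
  have hk3 : (k : ℝ) < Z := by
    by_contra hcon
    exact hk2 ⟨(Dvd.intro_left _ hk.symm).trans hd, not_lt.1 hcon⟩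
  have hp2 := h _ hp ((Nat.minFac_dvd d).trans hd)
  refine ⟨d, hd, hZd, ?_⟩
  have e : (d : ℝ) = d.minFac * k := by exact_mod_cast hk
  rw [e, sq]
  exact mul_lt_mul'' hp2 hk3 (Nat.cast_nonneg _) (Nat.cast_nonneg _)

theorem split_primes (P : ℕ → Prop) {n : ℕ} (hn : 0 < n) :
    ∃ d e : ℕ, n = d * e ∧ (∀ p : ℕ, p.Prime → p ∣ d → P p) ∧
      ∀ p : ℕ, p.Prime → p ∣ e → ¬ P p := by
  induction n using induction_on_primes with
  | zero => omega
  | one =>
    exact ⟨1, 1, rfl, fun p hp h => absurd (Nat.dvd_one.1 h) hp.ne_one,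
      fun p hp h => absurd (Nat.dvd_one.1 h) hp.ne_one⟩
  | prime_mul q a hq ih =>
    obtain ⟨d, e, rfl, h1, h2⟩ := ih (Nat.pos_of_mul_pos_left hn)
    by_cases hP : P q
    · refine ⟨q * d, e, by ring, fun p hp h => ?_, h2⟩
      rcases (Nat.Prime.dvd_mul hp).1 h with h | h
      · rwa [(Nat.prime_dvd_prime_iff_eq hp hq).1 h]
      · exact h1 p hp h
    · refine ⟨d, q * e, by ring, h1, fun p hp h => ?_⟩
      rcases (Nat.Prime.dvd_mul hp).1 h with h | h
      · rwa [(Nat.prime_dvd_prime_iff_eq hp hq).1 h]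
      · exact h2 p hp h

theorem ev_log3 {a K : ℝ} (ha : 0 < a) (hK : 0 < K) :
    ∀ᶠ i : ℕ in atTop, K * Real.log i ^ 3 ≤ (i : ℝ) ^ a := by
  have h := (isLittleO_log_rpow_rpow_atTop (3 : ℝ) ha).bound (c := 1 / K) (by positivity)
  have h2 := tendsto_natCast_atTop_atTop (R := ℝ) |>.eventually h
  filter_upwards [h2, eventually_ge_atTop 1] with i hi h1
  have h3 : 0 ≤ Real.log i := Real.log_nonneg (by exact_mod_cast h1)
  rw [Real.norm_of_nonneg (Real.rpow_nonneg h3 _),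
    Real.norm_of_nonneg (Real.rpow_nonneg (Nat.cast_nonneg _) _)] at hi
  have e : Real.log i ^ (3 : ℝ) = Real.log i ^ 3 := by
    rw [← Real.rpow_natCast]; norm_num
  rw [e] at hi
  calc K * Real.log i ^ 3 ≤ K * (1 / K * (i : ℝ) ^ a) := mul_le_mul_of_nonneg_left hi hK.le
    _ = (i : ℝ) ^ a := by field_simp

theorem ev_tt {A a K : ℝ} (hA : 0 < A) (ha : 0 < a) : ∀ᶠ i : ℕ in atTop, K ≤ tt A i ^ a :=
  ((tendsto_rpow_atTop ha).comp ((tendsto_rpow_atTop hA).comp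
    tendsto_natCast_atTop_atTop)).eventually_ge_atTop K

theorem Adm.le_rpow {A κ σ ε : ℝ} {M : Set ℕ} {i₁ : ℕ} {g : ℕ → ℝ} (h : Adm A κ σ ε M i₁ g)
    (hε : 0 ≤ ε) (hy : 3 ≤ tt A i₁ ^ σ) {n : ℕ} (hn : 0 < n) : g n ≤ (n : ℝ) ^ (2 * ε - 1) := by
  induction n using induction_on_primes with
  | zero => omega
  | one => simp [h.one]
  | prime_mul q a hq ih =>
    have ha := Nat.pos_of_mul_pos_left hn
    have h1 : g q ≤ (q : ℝ) ^ (2 * ε - 1) := by
      by_cases hH : IsH A κ σ M i₁ q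
      · exact h.handle q hq hH
      · rcases le_or_gt (q : ℝ) (tt A i₁ ^ σ) with h2 | h2
        · rw [h.small q hq h2]; positivity
        · have h3 : (3 : ℝ) ≤ q := by linarith
          have h4 : 1 ≤ Real.log q := by
            rw [Real.le_log_iff_exp_le (by linarith)]
            linarith [Real.exp_one_lt_d9]
          refine (h.normal q hq hH).trans ?_
          unfold phi
          have h5 : (q : ℝ) ^ (ε - 1) ≤ (q : ℝ) ^ (2 * ε - 1) :=
            Real.rpow_le_rpow_of_exponent_le (by linarith) (by linarith)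
          refine le_trans (div_le_self (by positivity) (by nlinarith)) h5
    rw [h.mul q a hq.pos ha, Nat.cast_mul,
      Real.mul_rpow (Nat.cast_nonneg _) (Nat.cast_nonneg _)]
    exact mul_le_mul h1 (ih ha) (h.nonneg _) (by positivity)

theorem cases_passive {A κ σ ε μ : ℝ} {M : Set ℕ} {i₁ i n : ℕ} {g : ℕ → ℝ}
    (P : Par A κ σ ε μ) (h : Adm A κ σ ε M i₁ g) (hi1 : 1 ≤ i)
    (hZ : 5 ≤ tt A i ^ (1 / 20 : ℝ)) (hn : n ∈ B A i) (hA : n ∉ Act A κ σ M (tt A i₁ ^ σ) i) :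
    n ∈ Bad1 A κ σ M i₁ i ∨ n ∈ Bad2 A κ σ M i₁ i ∨ n ∈ Mid A σ ε g i ∨
      n ∈ Smo A κ σ M i₁ i ∨ g n ≤ 1 / tt A i := by
  classical
  obtain ⟨s_pos, s_le, k_le, A_ge, A_lt, e_pos, e_le, m_pos, m_le⟩ := P
  have hA0 : 0 < A := by linarith
  have hA1 : 1 ≤ A := by linarith
  have hir : (1 : ℝ) ≤ i := by exact_mod_cast hi1
  have hz1 : 1 ≤ tt A i := one_le_tt hA0.le hi1
  have hz0 : 0 < tt A i := by linarith
  have hn0 : 0 < n := pos_of_mem_B hA0.le hi1 hn
  obtain ⟨hn1, hn2⟩ := mem_B.1 hn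
  set z := tt A i with hz
  set Z := z ^ (1 / 20 : ℝ) with hZd
  have hZ2 : z ^ (1 / 10 : ℝ) = Z ^ 2 := by
    rw [hZd, ← Real.rpow_natCast, ← Real.rpow_mul hz0.le]; norm_num
  have hZ20 : Z ^ 4 ≤ z := by
    rw [hZd, ← Real.rpow_natCast, ← Real.rpow_mul hz0.le]
    have := Real.rpow_le_rpow_of_exponent_le hz1 (show (1 / 20 : ℝ) * ((4 : ℕ) : ℝ) ≤ 1 by norm_num)
    rwa [Real.rpow_one] at this
  have hZH : Z ^ 2 ≤ HH A i := by
    rw [← hZ2, hz]
    unfold tt HH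
    rw [← Real.rpow_mul (by linarith)]
    exact Real.rpow_le_rpow_of_exponent_le hir (by linarith)
  have hzgt : 1 < z := by nlinarith [pow_le_pow_left₀ (by norm_num : (0 : ℝ) ≤ 5) hZ 4]
  by_cases hB1 : n ∈ Bad1 A κ σ M i₁ i
  · exact Or.inl hB1
  by_cases hB2 : n ∈ Bad2 A κ σ M i₁ i
  · exact Or.inr (Or.inl hB2)
  right; right
  unfold Bad1 at hB1
  unfold Bad2 at hB2
  rw [Finset.mem_filter] at hB1 hB2
  unfold Mid Smo
  rw [Finset.mem_filter, Finset.mem_filter, ← hz, hZ2, ← hZd]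
  by_cases hbig : ∃ q : ℕ, q ∣ n ∧ IsH A κ σ M i₁ q ∧ HH A i < q
  · obtain ⟨q, hqn, ⟨c, hcM, hc, n', hn', rfl⟩, hq⟩ := hbig
    have h1 : ¬ ((c : ℝ) < (i : ℝ) ^ (1 - κ / 2) ∨ ¬ n' ∣ n) :=
      fun hh => hB2 ⟨hn, c, hcM, hc, n', hn', hqn, hq, hh⟩
    push Not at h1
    obtain ⟨h2, s, hs⟩ := h1
    have hc2 : z ^ (1 - κ / 2) ≤ tt A c := by
      rw [hz]
      unfold tt
      rw [← Real.rpow_mul (by linarith), mul_comm, Real.rpow_mul (by linarith)]
      exact Real.rpow_le_rpow (by positivity) h2 hA0.le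
    obtain ⟨hnB, hnR, -, -⟩ := mem_Hand.1 hn'
    left
    refine ⟨hn, s, n', by rw [hs, mul_comm], ?_, ?_, fun p hp hd => ?_, h.handNum c hcM hc n' hn'⟩
    · by_contra hcon
      have : s = 0 ∨ s = 1 := by omega
      rcases this with rfl | rfl
      · rw [mul_zero] at hs; omega
      · rw [mul_one] at hs
        subst hs
        have e : c = i := by rw [← (mem_B_iff hA0).1 hnB, (mem_B_iff hA0).1 hn]
        subst e
        exact hA (by rwa [Act_of_mem hcM])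
    · have h3 := (mem_B.1 hnB).1
      have h4 := h_le hA1 A_lt.le hi1
      have h5 : HH A i ≤ z := by
        rw [hz, tt_eq hi1]; nlinarith [HH_pos (A := A) hi1]
      have h6 : (n : ℝ) = n' * s := by exact_mod_cast hs
      have h7 : z = z ^ (1 - κ / 2) * z ^ (κ / 2) := by
        rw [← Real.rpow_add hz0]; simp
      have h8 : z ^ (κ / 2) ≤ Z := Real.rpow_le_rpow_of_exponent_le hz1 (by linarith)
      have h9 : 0 < z ^ (1 - κ / 2) := by positivity
      have h10 : z ^ (1 - κ / 2) * s ≤ z ^ (1 - κ / 2) * (5 * Z) := by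
        have : (0 : ℝ) ≤ s := Nat.cast_nonneg _
        nlinarith
      have h11 := le_of_mul_le_mul_left h10 h9
      nlinarith
    · refine lt_of_le_of_lt ?_ (hnR p hp hd)
      refine le_trans ?_ (Real.rpow_le_rpow (by positivity) hc2 s_pos.le)
      rw [← Real.rpow_mul hz0.le]
      exact Real.rpow_le_rpow_of_exponent_le hz1 (by nlinarith)
  push Not at hbig
  have hsm : ∀ q : ℕ, q.Prime → q ∣ n → IsH A κ σ M i₁ q → (q : ℝ) < Z := by
    intro q hq hd hH
    by_contra hcon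
    exact hB1 ⟨hn, q, hd, not_lt.1 hcon, hbig q hd hH, fun p hp hpq => by
      rwa [(Nat.prime_dvd_prime_iff_eq hp hq).1 hpq]⟩
  obtain ⟨d, e, hde, hd, he⟩ := split_primes (IsH A κ σ M i₁) hn0
  have hdn : d ∣ n := Dvd.intro _ hde.symm
  have hdZ : (d : ℝ) < Z := by
    by_contra hcon
    obtain ⟨d', h1, h2, h3⟩ := window (by linarith) (not_lt.1 hcon)
      (fun p hp hpd => hsm p hp (hpd.trans hdn) (hd p hp hpd))
    exact hB1 ⟨hn, d', h1.trans hdn, h2, by linarith, fun p hp hpd => hd p hp (hpd.trans h1)⟩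
  have hder : (n : ℝ) = d * e := by exact_mod_cast hde
  have he0 : (0 : ℝ) ≤ e := Nat.cast_nonneg _
  have hZ0 : 0 < Z := by linarith
  have heZ : Z ^ 3 ≤ e := by
    have h1 : Z * Z ^ 3 ≤ Z * e := by nlinarith
    exact le_of_mul_le_mul_left h1 hZ0
  have hZ3 : Z ≤ Z ^ 3 := by nlinarith [mul_le_mul hZ hZ (by norm_num) hZ0.le]
  have hdZ2 : (d : ℝ) ≤ Z ^ 2 := by nlinarith
  have he2 : 2 ≤ e := by
    have : (2 : ℝ) ≤ e := by linarith
    exact_mod_cast this
  obtain ⟨hP, a, ha⟩ := PF_prime he2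
  rcases lt_or_ge (PF e : ℝ) Z with hPZ | hPZ
  · obtain ⟨a', ⟨b, hb⟩, h2, h3⟩ := window (n := e) (by linarith) (by linarith)
      (fun p hp hpd => lt_of_le_of_lt (by exact_mod_cast le_PF (by omega) hp hpd) hPZ)
    right; left
    refine ⟨hn, d, a', b, by rw [hde, hb, mul_assoc], hdZ2, h2, ?_, fun p hp hpd =>
      he p hp (hb ▸ hpd)⟩
    have h4 : (e : ℝ) = a' * b := by exact_mod_cast hb
    by_contra hcon
    have h5 : (a' : ℝ) * b < Z ^ 2 * Z :=
      mul_lt_mul'' h3 (not_le.1 hcon) (Nat.cast_nonneg _) (Nat.cast_nonneg _)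
    nlinarith
  rcases le_or_gt Z (a : ℝ) with haZ | haZ
  · right; left
    exact ⟨hn, d, PF e, a, by rw [hde, mul_assoc, ← ha], hdZ2, hPZ, haZ, fun p hp hpd =>
      he p hp (ha ▸ hpd)⟩
  have hnH : ¬ IsH A κ σ M i₁ (PF e) := he _ hP (Dvd.intro _ ha.symm)
  have hnda : n = d * a * PF e := by rw [hde, mul_assoc, mul_comm a, ← ha]
  by_cases hs : 2 ≤ d * a
  · left
    refine ⟨hn, d * a, PF e, hnda, hs, ?_, fun p hp hpd => ?_, h.normal _ hP hnH⟩
    · push_cast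
      rw [sq]
      exact (mul_lt_mul'' hdZ haZ (Nat.cast_nonneg _) (Nat.cast_nonneg _)).le
    · rw [(Nat.prime_dvd_prime_iff_eq hp hP).1 hpd]
      exact lt_of_lt_of_le (Real.rpow_lt_rpow_of_exponent_lt hzgt (by linarith)) hPZ
  · right; right
    have h1 : d * a = 1 := by
      have : d * a ≠ 0 := fun h0 => by rw [h0, zero_mul] at hnda; omega
      omega
    rw [h1, one_mul] at hnda
    rw [← hnda] at hP hnH
    refine (h.dflt n hP hnH (by rwa [(mem_B_iff hA0).1 hn])).trans ?_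
    exact one_div_le_one_div_of_le hz0 hn1

theorem est_of (h1 : S_E1) (h2 : S_E2) (h3 : S_E3) (h4 : S_E4) : S_Est := by
  classical
  intro C hC hR A κ σ ε μ CM M a1 a2 a3 a4 a5 a6 a7 a8 a9 hCM hS hF θ hθ
  have P : Par A κ σ ε μ := ⟨a1, a2, a3, a4, a5, a6, a7, a8, a9⟩
  have hA0 : 0 < A := by linarith
  have hA1 : 1 ≤ A := by linarith
  obtain ⟨-, hG, hD⟩ := h1 A κ σ ε μ CM M P hCM hS
  obtain ⟨iB, hiB⟩ := h2 A κ σ ε μ CM M P hCM hS hF hD
  obtain ⟨iM, hiM⟩ := h3 C A κ σ ε μ M hC hR P hG (θ / 4) (by linarith)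
  obtain ⟨iS, hiS⟩ := h4 A κ σ ε μ M P hG (θ / 4) (by linarith)
  obtain ⟨j, hj⟩ := eventually_atTop.1 ((ev_log3 (a := σ / 200) (K := 16 / θ) (by linarith)
    (by positivity)).and ((ev_log3 (a := ε) (K := 80 / θ) a6 (by positivity)).and
    ((ev_tt (K := 3) hA0 a1).and ((ev_tt (K := 5) (a := 1 / 20) hA0 (by norm_num)).and
      (eventually_ge_atTop 2)))))
  refine ⟨max (max iB iM) (max iS j), fun i₁ hi₁ g hg i hi => ?_⟩
  simp only [max_le_iff] at hi₁
  obtain ⟨⟨b1, b2⟩, b3, b4⟩ := hi₁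
  obtain ⟨-, -, hy, -, -⟩ := hj i₁ b4
  obtain ⟨l1, l2, -, hZ, hi2⟩ := hj i (b4.trans hi)
  have hi1 : 1 ≤ i := by omega
  have g1 := hiB i₁ b1 i hi
  have g2 := hiM i₁ b2 g hg i hi
  have g3 := hiS i₁ b3 g hg i hi
  have hir : (2 : ℝ) ≤ i := by exact_mod_cast hi2
  have hz0 : 0 < tt A i := by linarith [one_le_tt hA0.le hi1]
  have hL : 0 < Real.log i := Real.log_pos (by linarith)
  have hH := HH_pos (A := A) hi1
  set w := tt A i ^ (2 * ε - 1) with hw
  have hw0 : 0 < w := by positivity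
  have hpt : ∀ n ∈ B A i \ Act A κ σ M (tt A i₁ ^ σ) i, g n ≤
      (if n ∈ Bad1 A κ σ M i₁ i then w else 0) + (if n ∈ Bad2 A κ σ M i₁ i then w else 0) +
      (if n ∈ Mid A σ ε g i then g n else 0) + (if n ∈ Smo A κ σ M i₁ i then g n else 0) +
      1 / tt A i := by
    intro n hn
    rw [Finset.mem_sdiff] at hn
    have hgw : g n ≤ w := (hg.le_rpow a6.le hy (pos_of_mem_B hA0.le hi1 hn.1)).trans
      (Real.rpow_le_rpow_of_nonpos hz0 (mem_B.1 hn.1).1 (by linarith))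
    have hg0 := hg.nonneg n
    have h0 : 0 < 1 / tt A i := by positivity
    rcases cases_passive P hg hi1 hZ hn.1 hn.2 with h | h | h | h | h
    all_goals split_ifs <;> first | linarith | contradiction
  have hsub : ∀ (S : Finset ℕ) (u : ℕ → ℝ), (∀ n, 0 ≤ u n) →
      ∑ n ∈ B A i \ Act A κ σ M (tt A i₁ ^ σ) i, (if n ∈ S then u n else 0) ≤ ∑ n ∈ S, u n := by
    intro S u hu
    rw [← Finset.sum_filter]
    exact Finset.sum_le_sum_of_subset_of_nonneg (fun n hn => (Finset.mem_filter.1 hn).2)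
      (fun n _ _ => hu n)
  have s0 := Finset.sum_le_sum hpt
  simp only [Finset.sum_add_distrib] at s0
  have s1 := hsub (Bad1 A κ σ M i₁ i) (fun _ => w) (fun _ => hw0.le)
  have s2 := hsub (Bad2 A κ σ M i₁ i) (fun _ => w) (fun _ => hw0.le)
  have s3 := hsub (Mid A σ ε g i) g hg.nonneg
  have s4 := hsub (Smo A κ σ M i₁ i) g hg.nonneg
  have s5 : ∑ _n ∈ B A i \ Act A κ σ M (tt A i₁ ^ σ) i, 1 / tt A i ≤ 5 * HH A i * (1 / tt A i) := by
    rw [Finset.sum_const, nsmul_eq_mul]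
    refine mul_le_mul_of_nonneg_right (le_trans ?_ (card_B_le hA1 a5.le hi1)) (by positivity)
    exact_mod_cast Finset.card_le_card Finset.sdiff_subset
  simp only [Finset.sum_const, nsmul_eq_mul] at s1 s2
  have hlog : Real.log (tt A i) = A * Real.log i := Real.log_rpow (by linarith) _
  have hlb : tt A i ^ (ε - 1) / (4 * Real.log i ^ 3) ≤ phi ε (tt A i) / Real.log i := by
    unfold phi
    rw [hlog, div_div]
    refine div_le_div_of_nonneg_left (by positivity) (by positivity) ?_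
    have : A ^ 2 ≤ 4 := by nlinarith
    have h5 : 0 < Real.log i ^ 3 := by positivity
    calc (A * Real.log i) ^ 2 * Real.log i = A ^ 2 * Real.log i ^ 3 := by ring
      _ ≤ 4 * Real.log i ^ 3 := by gcongr
  have t1 : w * (i : ℝ) ^ (-(σ / 100)) ≤ θ / 4 * (tt A i ^ (ε - 1) / (4 * Real.log i ^ 3)) := by
    have e1 : w = tt A i ^ (ε - 1) * tt A i ^ ε := by
      rw [hw, ← Real.rpow_add hz0]; congr 1; ring
    have e2 : tt A i ^ ε * (i : ℝ) ^ (-(σ / 100)) * (i : ℝ) ^ (σ / 200) ≤ 1 := by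
      unfold tt
      rw [← Real.rpow_mul (by linarith), ← Real.rpow_add (by linarith),
        ← Real.rpow_add (by linarith)]
      exact Real.rpow_le_one_of_one_le_of_nonpos (by linarith) (by nlinarith)
    have e3 : tt A i ^ ε * (i : ℝ) ^ (-(σ / 100)) * (16 / θ * Real.log i ^ 3) ≤ 1 :=
      le_trans (mul_le_mul_of_nonneg_left l1 (by positivity)) e2
    have e4 : tt A i ^ ε * (i : ℝ) ^ (-(σ / 100)) ≤ θ / 4 / (4 * Real.log i ^ 3) := by
      rw [le_div_iff₀ (by positivity)]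
      have e5 := mul_le_mul_of_nonneg_left e3 (show 0 ≤ θ / 4 by linarith)
      calc _ = θ / 4 * (tt A i ^ ε * (i : ℝ) ^ (-(σ / 100)) * (16 / θ * Real.log i ^ 3)) := by
            field_simp; ring
        _ ≤ θ / 4 := by linarith
    calc w * (i : ℝ) ^ (-(σ / 100))
        = tt A i ^ (ε - 1) * (tt A i ^ ε * (i : ℝ) ^ (-(σ / 100))) := by rw [e1, mul_assoc]
      _ ≤ tt A i ^ (ε - 1) * (θ / 4 / (4 * Real.log i ^ 3)) := by gcongr
      _ = _ := by ring
  have t2 : 5 * (1 / tt A i) ≤ θ / 4 * (tt A i ^ (ε - 1) / (4 * Real.log i ^ 3)) := by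
    have e1 : tt A i ^ (ε - 1) = tt A i ^ ε / tt A i := by
      rw [Real.rpow_sub hz0, Real.rpow_one]
    have e2 : (i : ℝ) ^ ε ≤ tt A i ^ ε := by
      refine Real.rpow_le_rpow (by linarith) ?_ a6.le
      have := Real.rpow_le_rpow_of_exponent_le (by linarith : (1 : ℝ) ≤ i) hA1
      rwa [Real.rpow_one] at this
    have e3 := l2.trans e2
    calc 5 * (1 / tt A i)
        = θ / 4 * ((80 / θ * Real.log i ^ 3) / tt A i / (4 * Real.log i ^ 3)) := by
          field_simp; ring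
      _ ≤ θ / 4 * (tt A i ^ ε / tt A i / (4 * Real.log i ^ 3)) := by gcongr
      _ = _ := by rw [e1]
  have t3 := mul_le_mul_of_nonneg_left hlb (show 0 ≤ θ / 4 by linarith)
  have u1 := mul_le_mul_of_nonneg_left (t1.trans t3) hH.le
  have u2 := mul_le_mul_of_nonneg_left (t2.trans t3) hH.le
  have u3 := mul_le_mul_of_nonneg_right g1 hw0.le
  have e0 : ∀ x : ℝ, x * phi ε (tt A i) * HH A i / Real.log i =
      HH A i * (x * (phi ε (tt A i) / Real.log i)) := fun x => by ring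
  rw [e0] at g2 g3 ⊢
  nlinarith

end Pool.Agent.H392Z.MO
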