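import Mathlib
import Pool.Agent.H392Z.MO.ConA
import Pool.Agent.H392Z.MO.EstGlue
import Pool.Agent.H270Z.MOE1
import Pool.Agent.H31Z.E2
import Pool.Agent.H950Z.MoE3
import Pool.Agent.H172Z.MoE4
import Pool.Agent.H676Z.MO.ConB

/-! The a priori estimate and the construction. -/

set_option autoImplicit false

namespace Pool.Agent.H392Z.MO

theorem est : S_Est :=
  est_of Pool.Agent.H270Z.MOE1.e1 Pool.Agent.H31Z.E2.e2 Pool.Agent.H950Z.MoE3.e3
    Pool.Agent.H172Z.MoE4.e4

theorem con : S_Con := con_of conA Pool.Agent.H676Z.MO.conB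

end Pool.Agent.H392Z.MO
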