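import Mathlib
import Pool.Agent.H392Z.MO.Basic

/-! The family of member blocks from its four parts. -/

set_option autoImplicit false

open Filter Topology Finset

namespace Pool.Agent.H392Z.MO

theorem fam_of (ha : S_FamA) (hb : S_FamB) (hc : S_FamC) (hd : S_FamD) : S_Fam := by
  classical
  intro hF C hC hR κ μ hκ hκ1 hμ hμ1
  obtain ⟨η, hη, hA⟩ := ha hF (μ / 20) (by linarith)
  refine ⟨min η (κ / 100), lt_min hη (by linarith), fun A hA2 hA1 => ?_⟩
  have h1 : 2 - η ≤ A := by linarith [min_le_left η (κ / 100)]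
  have h2 : 2 - κ / 100 ≤ A := by linarith [min_le_right η (κ / 100)]
  have hA0 : 0 < A := by linarith
  obtain ⟨CP, hCP, hP⟩ := hA A hA2 h1
  obtain ⟨⟨C', hC', hS⟩, hPM⟩ := hb A (μ / 20) CP (by linarith) hA2 (by linarith) (by linarith)
    hCP hP
  obtain ⟨y₀, iC, hiC⟩ := hc C A (μ / 20) CP hC hR (by linarith) hA2 (by linarith) (by linarith)
    hCP hP (1 / 1600) (by norm_num)
  obtain ⟨iD, hiD⟩ := hd A κ (μ / 20) C' (Mem A (μ / 20)) hκ hκ1 h2 hA2 (by linarith)
    (by linarith) hC' hS (1 / 1600) (by norm_num)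
  have e : 20 * (μ / 20) = μ := by ring
  rw [e] at hS
  refine ⟨Mem A (μ / 20), C', 1 / 800, y₀, max (max iC iD) 1, hC', by norm_num, hS,
    fun y hy i hi hiM => ?_⟩
  have hi1 : 1 ≤ i := (le_max_right _ _).trans hi
  have g1 := hiC y hy i (((le_max_left _ _).trans (le_max_left _ _)).trans hi) hiM
  have g2 := hiD i (((le_max_right _ _).trans (le_max_left _ _)).trans hi)
  have g3 : ¬ Poor A i := fun h => hiM (hPM i hi1 h)
  unfold Poor at g3
  push Not at g3
  have hsub : (B A i).filter Nat.Prime ⊆ Free A κ (Mem A (μ / 20)) y i ∪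
      ((B A i).filter (fun p => p.Prime ∧ ∃ c ∈ Mem A (μ / 20), ∃ r : ℕ, y < (r : ℝ) ∧
          (r : ℝ) ≤ (i : ℝ) ^ (100 * (μ / 20)) ∧ r * p ∈ B A c) ∪
        (B A i).filter (fun p => ∃ c ∈ Mem A (μ / 20), ∃ r : ℕ,
          (i : ℝ) ^ (100 * (μ / 20)) < (r : ℝ) ∧ r * p ∈ B A c ∧ kk κ c ≤ i)) := by
    intro p hp
    rw [Finset.mem_filter] at hp
    rw [Finset.mem_union, Finset.mem_union, Finset.mem_filter, Finset.mem_filter, mem_Free]
    by_cases hpr : Prot A κ (Mem A (μ / 20)) y p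
    · right
      obtain ⟨c, hcM, r, hr, hB, hk⟩ := hpr
      have hb' : blk A p = i := (mem_B_iff hA0).1 hp.1
      rcases hr with rfl | hr
      · rw [one_mul, mem_B_iff hA0, hb'] at hB
        exact absurd (hB ▸ hcM) hiM
      · rcases le_or_gt (r : ℝ) ((i : ℝ) ^ (100 * (μ / 20))) with h | h
        · exact Or.inl ⟨hp.1, hp.2, c, hcM, r, hr, h, hB⟩
        · exact Or.inr ⟨hp.1, c, hcM, r, h, hB, hb' ▸ hk⟩
    · exact Or.inl ⟨hp.1, hp.2, hpr⟩
  have g4 := (Finset.card_le_card hsub).trans ((Finset.card_union_le _ _).trans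
    (Nat.add_le_add_left (Finset.card_union_le _ _) _))
  have g5 := (Nat.cast_le (α := ℝ)).2 g4
  push_cast at g5
  have e1 : HH A i / (400 * Real.log i) = 1 / 400 * (HH A i / Real.log i) := by
    rw [one_div_mul_eq_div, div_div, mul_comm]
  rw [e1] at g3
  rw [mul_div_assoc] at g1 g2 ⊢
  linarith

end Pool.Agent.H392Z.MO
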