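import Mathlib
import Pool.Agent.H392Z.MO.FamGlue
import Pool.Agent.H949Z.MO.FamA
import Pool.Agent.H452Z.FamB
import Pool.Agent.H63Z.MO.FamC
import Pool.Agent.H948Z.FamD

/-! The family of member blocks. -/

set_option autoImplicit false

namespace Pool.Agent.H392Z.MO

theorem fam : S_Fam :=
  fam_of Pool.Agent.H949Z.MO.famA Pool.Agent.H452Z.MO.famB Pool.Agent.H63Z.MO.famC
    Pool.Agent.H948Z.FamD.famD

end Pool.Agent.H392Z.MO
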